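import Pool.Agent.P.MP_d72269_lc.Tree

/-!
Simplicial algebra on sequences: faces, cones, the barycentric subdivision attached to a system
of maps `F` and the chain homotopy from the identity to it.
-/

namespace Pool.Agent.P.MP_d72269_lc

open Filter Topology Finset

abbrev Sq : Type := ℕ → Om

def del (i : ℕ) (σ : Sq) : Sq := fun k => if k < i then σ k else σ (k + 1)

def ins (j : ℕ) (y : Om) (σ : Sq) : Sq :=
  fun k => if k < j then σ k else if k = j then y else σ (k - 1)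

theorem del_ins_self (j : ℕ) (y : Om) (σ : Sq) : del j (ins j y σ) = σ := by
  funext k
  simp only [del, ins]
  split_ifs <;> first | rfl | omega

theorem ins_self (j : ℕ) (y : Om) (σ : Sq) : ins j y σ j = y := by simp [ins]

theorem ins_lt {j k : ℕ} (h : k < j) (y : Om) (σ : Sq) : ins j y σ k = σ k := by simp [ins, h]

theorem ins_del (j : ℕ) (σ : Sq) : ins j (σ j) (del j σ) = σ := by
  funext k
  simp only [del, ins]
  split_ifs <;> first | rfl | omega | exact congrArg σ (by omega)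

theorem del_ins_le {i j : ℕ} (h : i ≤ j) (y : Om) (σ : Sq) :
    del i (ins (j + 1) y σ) = ins j y (del i σ) := by
  funext k
  simp only [del, ins]
  split_ifs <;> first | rfl | omega | skip
  have h1 : k + 1 - 1 = k - 1 + 1 := by omega
  rw [h1]

theorem del_ins_zero (i : ℕ) (y : Om) (σ : Sq) :
    del (i + 1) (ins 0 y σ) = ins 0 y (del i σ) := by
  funext k
  cases k with
  | zero => simp [del, ins]
  | succ k => simp [del, ins]

theorem del_del {i j : ℕ} (h : j ≤ i) (σ : Sq) : del j (del (i + 1) σ) = del i (del j σ) := by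
  funext k
  simp only [del]
  split_ifs <;> first | rfl | omega

theorem cont_del (i : ℕ) : Continuous (del i) := by
  refine continuous_pi fun k => ?_
  simp only [del]
  split_ifs <;> exact continuous_apply _

theorem cont_ins {T : Type*} [TopologicalSpace T] (j : ℕ) {y : T → Om} {γ : T → Sq}
    (hy : Continuous y) (hγ : Continuous γ) : Continuous fun t => ins j (y t) (γ t) := by
  refine continuous_pi fun k => ?_
  simp only [ins]
  split_ifs
  · exact (continuous_apply _).comp hγ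
  · exact hy
  · exact (continuous_apply _).comp hγ

def dd (m : ℕ) (θ : Sq → ℤ) (σ : Sq) : ℤ := ∑ i ∈ range (m + 1), (-1) ^ i * θ (del i σ)

theorem dd_dd (m : ℕ) (θ : Sq → ℤ) (σ : Sq) : dd (m + 1) (dd m θ) σ = 0 := by
  unfold dd
  induction m with
  | zero => simp [sum_range_succ, del_del (le_refl 0)]
  | succ m ih =>
    rw [sum_range_succ]
    have h1 : ∑ i ∈ range (m + 1 + 1), (-1 : ℤ) ^ i *
          ∑ j ∈ range (m + 1 + 1), (-1) ^ j * θ (del j (del i σ)) =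
        ∑ i ∈ range (m + 1 + 1), (-1 : ℤ) ^ i * ((-1) ^ (m + 1) * θ (del (m + 1) (del i σ))) := by
      rw [← zero_add (∑ i ∈ range (m + 1 + 1),
        (-1 : ℤ) ^ i * ((-1) ^ (m + 1) * θ (del (m + 1) (del i σ)))), ← ih, ← sum_add_distrib]
      refine sum_congr rfl fun i _ => ?_
      rw [sum_range_succ, mul_add]
    rw [h1, mul_sum, ← sum_add_distrib]
    refine sum_eq_zero fun i hi => ?_
    rw [del_del (Nat.lt_succ_iff.1 (mem_range.1 hi))]
    ring

theorem dd_ins (m : ℕ) (θ : Sq → ℤ) (y : Om) (τ : Sq) :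
    dd (m + 1) θ (ins (m + 1) y τ) =
      dd m (fun ρ => θ (ins m y ρ)) τ + (-1) ^ (m + 1) * θ τ := by
  unfold dd
  rw [sum_range_succ, del_ins_self]
  congr 1
  refine sum_congr rfl fun i hi => ?_
  rw [del_ins_le (Nat.lt_succ_iff.1 (mem_range.1 hi))]

theorem dd_ins_zero (m : ℕ) (θ : Sq → ℤ) (y : Om) (τ : Sq) :
    dd (m + 1) θ (ins 0 y τ) = θ τ - dd m (fun ρ => θ (ins 0 y ρ)) τ := by
  unfold dd
  rw [sum_range_succ', del_ins_self]
  simp only [del_ins_zero, pow_succ, pow_zero, one_mul, mul_neg, mul_one, neg_mul,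
    sum_neg_distrib]
  ring

theorem dd_add (m : ℕ) (θ η : Sq → ℤ) (σ : Sq) :
    dd m (fun τ => θ τ + η τ) σ = dd m θ σ + dd m η σ := by
  simp only [dd, mul_add, sum_add_distrib]

theorem dd_mul (m : ℕ) (a : ℤ) (θ : Sq → ℤ) (σ : Sq) :
    dd m (fun τ => a * θ τ) σ = a * dd m θ σ := by
  simp only [dd, mul_sum]
  exact sum_congr rfl fun i _ => by ring

theorem dd_congr {m : ℕ} {θ η : Sq → ℤ} {σ : Sq} (h : ∀ i, i ≤ m → θ (del i σ) = η (del i σ)) :
    dd m θ σ = dd m η σ :=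
  sum_congr rfl fun i hi => by rw [h i (Nat.lt_succ_iff.1 (mem_range.1 hi))]

/-- formal integer combinations of substitutions. -/
abbrev Ch : Type := List (ℤ × (Sq → Sq))

def ev (l : Ch) (θ : Sq → ℤ) (σ : Sq) : ℤ := (l.map fun c => c.1 * θ (c.2 σ)).sum

def bd (m : ℕ) (l : Ch) : Ch :=
  (List.range (m + 1)).flatMap fun i => l.map fun c => ((-1) ^ i * c.1, fun σ => c.2 (del i σ))

def cone (e : ℤ) (j : ℕ) (y : Sq → Om) (l : Ch) : Ch :=
  l.map fun c => (e * c.1, fun σ => ins j (y σ) (c.2 σ))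

def scale (e : ℤ) (l : Ch) : Ch := l.map fun c => (e * c.1, c.2)

theorem ev_nil (θ : Sq → ℤ) (σ : Sq) : ev [] θ σ = 0 := rfl

theorem ev_cons (c : ℤ × (Sq → Sq)) (l : Ch) (θ : Sq → ℤ) (σ : Sq) :
    ev (c :: l) θ σ = c.1 * θ (c.2 σ) + ev l θ σ := by simp [ev]

theorem ev_append (l l' : Ch) (θ : Sq → ℤ) (σ : Sq) :
    ev (l ++ l') θ σ = ev l θ σ + ev l' θ σ := by simp [ev]

theorem ev_add (l : Ch) (θ η : Sq → ℤ) (σ : Sq) :
    ev l (fun τ => θ τ + η τ) σ = ev l θ σ + ev l η σ := by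
  induction l with
  | nil => rfl
  | cons c l ih => simp only [ev_cons, ih]; ring

theorem ev_mul (l : Ch) (a : ℤ) (θ : Sq → ℤ) (σ : Sq) :
    ev l (fun τ => a * θ τ) σ = a * ev l θ σ := by
  induction l with
  | nil => simp [ev_nil]
  | cons c l ih => simp only [ev_cons, ih]; ring

theorem ev_zero {l : Ch} {θ : Sq → ℤ} {σ : Sq} (h : ∀ c ∈ l, θ (c.2 σ) = 0) : ev l θ σ = 0 := by
  induction l with
  | nil => rfl
  | cons c l ih =>
    rw [ev_cons, h c (by simp), ih fun c hc => h c (by simp [hc])]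
    simp

theorem ev_map (e : ℤ) (g : (Sq → Sq) → Sq → Sq) (l : Ch) (θ η : Sq → ℤ) (σ τ : Sq)
    (h : ∀ γ, θ (g γ σ) = η (γ τ)) :
    ev (l.map fun c => (e * c.1, g c.2)) θ σ = e * ev l η τ := by
  induction l with
  | nil => simp [ev_nil]
  | cons c l ih => simp only [List.map_cons, ev_cons, ih, h]; ring

theorem ev_cone (e : ℤ) (j : ℕ) (y : Sq → Om) (l : Ch) (θ : Sq → ℤ) (σ : Sq) :
    ev (cone e j y l) θ σ = e * ev l (fun τ => θ (ins j (y σ) τ)) σ :=
  ev_map e (fun γ σ => ins j (y σ) (γ σ)) l _ _ _ _ fun _ => rfl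

theorem ev_scale (e : ℤ) (l : Ch) (θ : Sq → ℤ) (σ : Sq) : ev (scale e l) θ σ = e * ev l θ σ :=
  ev_map e (fun γ => γ) l _ _ _ _ fun _ => rfl

theorem ev_bd (m : ℕ) (l : Ch) (θ : Sq → ℤ) (σ : Sq) : ev (bd m l) θ σ = dd m (ev l θ) σ := by
  unfold bd dd
  generalize m + 1 = n
  induction n with
  | zero => rfl
  | succ n ih =>
    rw [List.range_succ, List.flatMap_append, ev_append, ih, sum_range_succ]
    congr 1
    simp only [List.flatMap_cons, List.flatMap_nil, List.append_nil]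
    exact ev_map _ (fun γ σ => γ (del n σ)) l _ _ _ _ fun _ => rfl

theorem mem_bd {m : ℕ} {l : Ch} {c : ℤ × (Sq → Sq)} (h : c ∈ bd m l) :
    ∃ i, i ≤ m ∧ ∃ c' ∈ l, c.2 = fun σ => c'.2 (del i σ) := by
  obtain ⟨i, hi, h⟩ := List.mem_flatMap.1 h
  obtain ⟨c', hc', rfl⟩ := List.mem_map.1 h
  exact ⟨i, Nat.lt_succ_iff.1 (List.mem_range.1 hi), c', hc', rfl⟩

theorem mem_cone {e : ℤ} {j : ℕ} {y : Sq → Om} {l : Ch} {c : ℤ × (Sq → Sq)}
    (h : c ∈ cone e j y l) : ∃ c' ∈ l, c.2 = fun σ => ins j (y σ) (c'.2 σ) := by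
  obtain ⟨c', hc', rfl⟩ := List.mem_map.1 h
  exact ⟨c', hc', rfl⟩

theorem mem_scale {e : ℤ} {l : Ch} {c : ℤ × (Sq → Sq)} (h : c ∈ scale e l) :
    ∃ c' ∈ l, c.2 = c'.2 := by
  obtain ⟨c', hc', rfl⟩ := List.mem_map.1 h
  exact ⟨c', hc', rfl⟩

/-- the flags of the barycentric subdivision. -/
def Fl (F : ℕ → Sq → Om) : ℕ → Ch
  | 0 => [(1, fun _ => 0)]
  | m + 1 => cone ((-1) ^ m) m (F (m + 1)) (bd m (Fl F m))

theorem mem_Fl {F : ℕ → Sq → Om} {m : ℕ} {c : ℤ × (Sq → Sq)} (h : c ∈ Fl F (m + 1)) :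
    ∃ i, i ≤ m ∧ ∃ c' ∈ Fl F m, c.2 = fun σ => ins m (F (m + 1) σ) (c'.2 (del i σ)) := by
  obtain ⟨c1, h1, h2⟩ := mem_cone h
  obtain ⟨i, hi, c', h3, h4⟩ := mem_bd h1
  exact ⟨i, hi, c', h3, by rw [h2, h4]⟩

theorem mem_Fl' {F : ℕ → Sq → Om} {m : ℕ} {c' : ℤ × (Sq → Sq)} (h : c' ∈ Fl F m) :
    ∃ c ∈ Fl F (m + 1), c.2 = fun σ => ins m (F (m + 1) σ) (c'.2 (del 0 σ)) :=
  ⟨_, List.mem_map.2 ⟨_, List.mem_flatMap.2 ⟨0, by simp, List.mem_map.2 ⟨c', h, rfl⟩⟩, rfl⟩, rfl⟩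

theorem Fl_congr {F G : ℕ → Sq → Om} {m : ℕ} (h : ∀ j, j ≤ m → F j = G j) : Fl F m = Fl G m := by
  induction m with
  | zero => rfl
  | succ m ih => rw [Fl, Fl, ih fun j hj => h j (by omega), h _ le_rfl]

theorem neg_one_sq' (m : ℕ) (a : ℤ) : (-1) ^ m * ((-1) ^ m * a) = a := by
  rw [← mul_assoc, ← mul_pow]; simp

theorem ev_Fl_dd (F : ℕ → Sq → Om) (m : ℕ) : ∀ (θ : Sq → ℤ) (σ : Sq),
    ev (Fl F (m + 1)) (dd m θ) σ = dd m (ev (Fl F m) θ) σ := by
  induction m with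
  | zero =>
    intro θ σ
    rw [Fl.eq_2, ev_cone, ev_bd]
    simp [dd, del_ins_self]
  | succ m ih =>
    intro θ σ
    rw [Fl, ev_cone, ev_bd]
    simp only [dd_ins]
    have : ev (Fl F (m + 1)) (fun τ => dd m (fun ρ => θ (ins m (F (m + 1 + 1) σ) ρ)) τ +
        (-1) ^ (m + 1) * θ τ) = fun τ =>
        dd m (ev (Fl F m) fun ρ => θ (ins m (F (m + 1 + 1) σ) ρ)) τ +
          (-1) ^ (m + 1) * ev (Fl F (m + 1)) θ τ := by
      funext τ
      rw [ev_add, ev_mul, ih]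
    rw [this, dd_add, dd_mul, dd_dd, zero_add, neg_one_sq']

def pre (F : ℕ → Sq → Om) (H : Ch) (m : ℕ) : Ch :=
  Fl F (m + 1) ++ ((-1, id) :: scale (-1) (bd m H))

def top (m : ℕ) (l : Ch) (σ : Sq) : Om := (l.map fun c => ∑ k ∈ range (m + 1), c.2 σ k).sum

/-- the chain homotopy. -/
def HL (F : ℕ → Sq → Om) : ℕ → Ch
  | 0 => []
  | m + 1 => cone ((-1) ^ (m + 1)) (m + 1) (top m (pre F (HL F m) m)) (pre F (HL F m) m)

def Z (m : ℕ) (σ : Sq) : Prop := ∀ k, m ≤ k → σ k = 0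

theorem Z.del {m i : ℕ} {σ : Sq} (h : Z (m + 1) σ) (hi : i ≤ m) : Z m (del i σ) := by
  intro k hk
  simp only [MP_d72269_lc.del]
  rw [if_neg (by omega)]
  exact h _ (by omega)

theorem Z.ins_zero {m : ℕ} {σ : Sq} (h : Z m σ) (y : Om) : Z (m + 1) (ins 0 y σ) := by
  intro k hk
  simp only [ins]
  rw [if_neg (by omega), if_neg (by omega)]
  exact h _ (by omega)

theorem ev_pre (F : ℕ → Sq → Om) (H : Ch) (m : ℕ) (θ : Sq → ℤ) (σ : Sq) :
    ev (pre F H m) θ σ = ev (Fl F (m + 1)) θ σ - θ σ - dd m (ev H θ) σ := by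
  rw [pre, ev_append, ev_cons, ev_scale, ev_bd]
  simp only [id]
  ring

theorem ev_HL_of {F : ℕ → Sq → Om} {m : ℕ} {σ : Sq}
    (h : ∀ η, ev (pre F (HL F m) m) (dd m η) σ = 0) (θ : Sq → ℤ) :
    ev (HL F (m + 1)) (dd (m + 1) θ) σ = ev (pre F (HL F m) m) θ σ := by
  rw [HL, ev_cone]
  simp only [dd_ins]
  rw [ev_add, ev_mul, h, zero_add, neg_one_sq']

theorem ev_pre_dd (F : ℕ → Sq → Om) (m : ℕ) : ∀ (σ : Sq), Z (m + 1) σ → ∀ η : Sq → ℤ,
    ev (pre F (HL F m) m) (dd m η) σ = 0 := by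
  induction m with
  | zero =>
    intro σ hσ η
    have : del 0 σ = 0 := funext fun k => hσ.del le_rfl k (Nat.zero_le _)
    rw [ev_pre, ev_Fl_dd]
    simp [dd, HL, Fl, ev, this]
  | succ m ih =>
    intro σ hσ η
    rw [ev_pre, ev_Fl_dd]
    have h1 : dd (m + 1) (ev (HL F (m + 1)) (dd (m + 1) η)) σ = dd (m + 1) (fun τ =>
        (ev (Fl F (m + 1)) η τ + (-1) * η τ) + (-1) * dd m (ev (HL F m) η) τ) σ := by
      refine dd_congr fun i hi => ?_
      rw [ev_HL_of (ih _ (hσ.del hi)), ev_pre]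
      ring
    rw [h1, dd_add, dd_add, dd_mul, dd_mul, dd_dd]
    ring

theorem ev_HL_dd (F : ℕ → Sq → Om) (m : ℕ) {σ : Sq} (hσ : Z (m + 1) σ) (θ : Sq → ℤ) :
    ev (HL F (m + 1)) (dd (m + 1) θ) σ =
      ev (Fl F (m + 1)) θ σ - θ σ - dd m (ev (HL F m) θ) σ := by
  rw [ev_HL_of (ev_pre_dd F m σ hσ), ev_pre]

theorem mem_pre {F : ℕ → Sq → Om} {H : Ch} {m : ℕ} {c : ℤ × (Sq → Sq)} (h : c ∈ pre F H m) :
    c ∈ Fl F (m + 1) ∨ c.2 = id ∨ ∃ i, i ≤ m ∧ ∃ c' ∈ H, c.2 = fun σ => c'.2 (del i σ) := by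
  rcases List.mem_append.1 h with h | h
  · exact Or.inl h
  · rcases List.mem_cons.1 h with h | h
    · exact Or.inr (Or.inl (by rw [h]))
    · obtain ⟨c1, h1, h2⟩ := mem_scale h
      obtain ⟨i, hi, c', h3, h4⟩ := mem_bd h1
      exact Or.inr (Or.inr ⟨i, hi, c', h3, h2.trans h4⟩)

theorem le_top' {m : ℕ} {l : Ch} {c : ℤ × (Sq → Sq)} (h : c ∈ l) (σ : Sq) {k : ℕ} (hk : k ≤ m) :
    c.2 σ k ≤ top m l σ := by
  refine le_trans ?_ (List.single_le_sum (fun _ _ => zero_le) _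
    (List.mem_map.2 ⟨c, h, rfl⟩))
  exact single_le_sum (f := fun k => c.2 σ k) (fun _ _ => zero_le)
    (mem_range.2 (Nat.lt_succ_of_le hk))

theorem cont_top (m : ℕ) {l : Ch} (h : ∀ c ∈ l, Continuous c.2) : Continuous (top m l) := by
  unfold top
  induction l with
  | nil => exact continuous_const
  | cons c l ih =>
    simp only [List.map_cons, List.sum_cons]
    refine Continuous.add ?_ (ih fun c hc => h c (by simp [hc]))
    exact continuous_finsetSum _ fun k _ => (continuous_apply k).comp (h c (by simp))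

theorem cont_Fl {F : ℕ → Sq → Om} (hF : ∀ j, Continuous (F j)) (m : ℕ) :
    ∀ c ∈ Fl F m, Continuous c.2 := by
  induction m with
  | zero =>
    intro c hc
    rw [Fl, List.mem_singleton] at hc
    subst hc; exact continuous_const
  | succ m ih =>
    intro c hc
    obtain ⟨i, -, c', h1, h2⟩ := mem_Fl hc
    rw [h2]
    exact cont_ins _ (hF _) ((ih c' h1).comp (cont_del i))

theorem cont_HL {F : ℕ → Sq → Om} (hF : ∀ j, Continuous (F j)) (m : ℕ) :
    ∀ c ∈ HL F m, Continuous c.2 := by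
  induction m with
  | zero => intro c hc; simp [HL] at hc
  | succ m ih =>
    have hp : ∀ c ∈ pre F (HL F m) m, Continuous c.2 := by
      intro c hc
      rcases mem_pre hc with h | h | ⟨i, -, c', h1, h2⟩
      · exact cont_Fl hF _ c h
      · rw [h]; exact continuous_id
      · rw [h2]; exact (ih c' h1).comp (cont_del i)
    intro c hc
    obtain ⟨c', h1, h2⟩ := mem_cone hc
    rw [h2]
    exact cont_ins _ (cont_top m hp) (hp c' h1)

def Inc (m : ℕ) (σ : Sq) : Prop := ∀ i j, i ≤ j → j < m → σ i ≤ σ j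

theorem Inc.del {m : ℕ} {σ : Sq} (h : Inc (m + 1) σ) (i : ℕ) : Inc m (del i σ) := by
  intro a b hab hb
  simp only [MP_d72269_lc.del]
  split_ifs <;> exact h _ _ (by omega) (by omega)

theorem Inc.ins {m : ℕ} {σ : Sq} (h : Inc m σ) {y : Om} (hy : ∀ k, k < m → σ k ≤ y) :
    Inc (m + 1) (ins m y σ) := by
  intro a b hab hb
  by_cases h1 : b < m
  · rw [ins_lt h1, ins_lt (hab.trans_lt h1)]
    exact h a b hab h1
  · have h2 : b = m := by omega
    subst h2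
    rw [ins_self]
    by_cases h3 : a < b
    · rw [ins_lt h3]; exact hy a h3
    · have h4 : a = b := by omega
      subst h4
      rw [ins_self]

theorem Inc.of_ins {m : ℕ} {σ : Sq} {y : Om} (h : Inc (m + 1) (MP_d72269_lc.ins m y σ)) :
    Inc m σ := by
  intro a b hab hb
  have := h a b hab (by omega)
  rwa [ins_lt hb, ins_lt (hab.trans_lt hb)] at this

theorem inc_down {F : ℕ → Sq → Om} {M : ℕ} (h : ∀ c ∈ Fl F M, ∀ σ, Inc M (c.2 σ)) {m : ℕ}
    (hm : m ≤ M) : ∀ c ∈ Fl F m, ∀ σ, Inc m (c.2 σ) := by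
  induction hm using Nat.decreasingInduction with
  | self => exact h
  | of_succ k _ ih =>
    intro c' hc' σ
    obtain ⟨c, h1, h2⟩ := mem_Fl' hc'
    have := ih c h1 (ins 0 0 σ)
    rw [h2] at this
    simpa only [del_ins_self] using this.of_ins

theorem fl_first {F : ℕ → Sq → Om} (m : ℕ) : ∀ {σ : Sq}, Z (m + 1) σ → ∀ c ∈ Fl F (m + 1),
    ∃ i, i ≤ m ∧ c.2 σ 0 = F 1 (ins 0 (σ i) 0) := by
  induction m with
  | zero =>
    intro σ hσ c hc
    obtain ⟨i, -, c', -, h2⟩ := mem_Fl hc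
    have : del 0 σ = 0 := funext fun k => hσ.del le_rfl k (Nat.zero_le _)
    refine ⟨0, le_rfl, ?_⟩
    rw [h2, ← this, ins_del]
    exact ins_self _ _ _
  | succ m ih =>
    intro σ hσ c hc
    obtain ⟨i, hi, c', h1, h2⟩ := mem_Fl hc
    obtain ⟨j, hj, h3⟩ := ih (hσ.del hi) c' h1
    rw [h2]
    simp only [ins_lt (Nat.succ_pos m), h3, del]
    split_ifs
    · exact ⟨j, by omega, rfl⟩
    · exact ⟨j + 1, by omega, rfl⟩

def Dom (f g : Om) : Prop := ∀ᶠ a in cofinite, f a ≤ g a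

theorem Dom.of_le {f f' g : Om} (h : Dom f' g) (hf : f ≤ f') : Dom f g :=
  h.mono fun a ha => (hf a).trans ha

theorem good_HL {F : ℕ → Sq → Om} {M : ℕ} (hinc : ∀ c ∈ Fl F M, ∀ σ, Inc M (c.2 σ))
    (hdom : ∀ f, Dom f (F 1 (ins 0 f 0))) (m : ℕ) (hm : m ≤ M) :
    ∀ c ∈ HL F m, ∀ σ, Inc m σ → Z m σ → Inc (m + 1) (c.2 σ) ∧ Dom (σ 0) (c.2 σ 0) := by
  induction m with
  | zero => intro c hc; simp [HL] at hc
  | succ m ih =>
    intro c hc σ h1 h2
    obtain ⟨c', h3, h4⟩ := mem_cone hc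
    have hp : Inc (m + 1) (c'.2 σ) ∧ Dom (σ 0) (c'.2 σ 0) := by
      rcases mem_pre h3 with h | h | ⟨i, hi, c'', h5, h6⟩
      · refine ⟨inc_down hinc hm c' h σ, ?_⟩
        obtain ⟨i, hi, h5⟩ := fl_first m h2 c' h
        rw [h5]
        exact (hdom _).of_le (h1 0 i (Nat.zero_le _) (by omega))
      · rw [h]; exact ⟨h1, Eventually.of_forall fun _ => le_rfl⟩
      · rw [h6]
        obtain ⟨h7, h8⟩ := ih (by omega) c'' h5 _ (h1.del i) (h2.del hi)
        refine ⟨h7, h8.of_le ?_⟩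
        cases m with
        | zero => simp [HL] at h5
        | succ m =>
          simp only [del]
          split_ifs
          · exact le_rfl
          · exact h1 _ _ (by omega) (by omega)
    rw [h4]
    refine ⟨hp.1.ins fun k hk => le_top' h3 σ (by omega), ?_⟩
    simp only [ins_lt (Nat.succ_pos m)]
    exact hp.2

end Pool.Agent.P.MP_d72269_lc
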