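import Pool.Agent.P.MP_d72269_lc.Sys
import Pool.Agent.P.MP_d72269_lc.Simp

/-!
The iterated filters on sequences and the continuous partition theorem: every measurable set
that is positive for the `m`-th filter contains all flags of a continuous system `F`.
-/

namespace Pool.Agent.P.MP_d72269_lc

open PiNat Filter Topology Set

def insE (m : ℕ) : Sq × Om ≃ᵐ Sq where
  toFun z := ins m z.2 z.1
  invFun σ := (del m σ, σ m)
  left_inv z := by simp [del_ins_self, ins_self]
  right_inv σ := ins_del m σ
  measurable_toFun := (cont_ins m continuous_snd continuous_fst).measurable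
  measurable_invFun := (cont_del m).measurable.prodMk (measurable_pi_apply m)

def LL : ℕ → Filter Sq
  | 0 => pure 0
  | m + 1 => (stp (LL m)).map (insE m)

theorem sys_LL : ∀ m, Sys (LL m)
  | 0 => sys_pure 0
  | m + 1 => (sys_LL m).step.map (insE m)

theorem inc_pos : ∀ m, ∃ᶠ σ in LL m, Inc m σ
  | 0 => frequently_pure.2 fun _ _ _ h => absurd h (Nat.not_lt_zero _)
  | m + 1 => by
      have := (sys_LL m).cnt
      rw [LL, frequently_map]
      refine (pos_bs (A := {σ | Inc m σ}) (inc_pos m) []
        fun p u => ∑ k ∈ Finset.range m, p k u.length).mono fun z hz => ?_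
      refine Inc.ins hz.1 fun k hk a => le_trans ?_ (hz.2.2 a (Nat.zero_le _))
      simp only [res_length]
      exact Finset.single_le_sum (f := fun k => z.1 k a) (fun _ _ => Nat.zero_le _)
        (Finset.mem_range.2 hk)

theorem lc_of_ind {T : Type*} [TopologicalSpace T] {Q : T → Prop} [DecidablePred Q]
    (h : IsLocallyConstant fun t => if Q t then 1 else 0) : IsLocallyConstant Q := by
  have : Q = (fun a : ℕ => a = 1) ∘ fun t => if Q t then 1 else 0 := by
    funext t
    by_cases hq : Q t <;> simp [hq]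
  rw [this]
  exact h.comp _

theorem cr (m : ℕ) : ∀ B : Set Sq, MeasurableSet B → (∃ᶠ σ in LL m, σ ∈ B) →
    ∀ h : ℕ → Sq → ℕ, (∀ i, Measurable (h i)) →
    ∃ F : ℕ → Sq → Om, (∀ j, Continuous (F j)) ∧ (∀ j σ, Dom (σ 0) (F j σ)) ∧
      ∀ c ∈ Fl F m, (∀ σ, c.2 σ ∈ B) ∧ ∀ i, IsLocallyConstant fun σ => h i (c.2 σ) := by
  classical
  induction m with
  | zero =>
    intro B _ hp h _
    refine ⟨fun _ σ => σ 0, fun _ => continuous_apply 0,
      fun _ _ => Eventually.of_forall fun _ => le_rfl, fun c hc => ?_⟩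
    rw [Fl, List.mem_singleton] at hc
    subst hc
    exact ⟨fun _ => frequently_pure.1 hp, fun i => IsLocallyConstant.const (h i 0)⟩
  | succ m ih =>
    intro B hB hp h hh
    rw [LL, frequently_map] at hp
    obtain ⟨A, s, φ, W, V, val, hA, hpA, hφ, hW, hV, hval, hmain⟩ :=
      dec (sys_LL m) ((insE m).measurable hB) hp (fun i z => h i (insE m z))
        fun i => (hh i).comp (insE m).measurable
    let H : ℕ × ℕ × Nd → Sq → ℕ := fun j p =>
      match j.1 with
      | 0 => φ p j.2.2
      | 1 => if W j.2.1 p j.2.2 then 1 else 0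
      | 2 => if V j.2.1 p j.2.2 then 1 else 0
      | _ + 3 => val j.2.1 p j.2.2
    have hH : ∀ j, Measurable (H j) := by
      rintro ⟨_ | _ | _ | t, i, u⟩
      · exact hφ u
      · exact Measurable.ite (measurableSet_setOfPred.2 (hW i u)) measurable_const measurable_const
      · exact Measurable.ite (measurableSet_setOfPred.2 (hV i u)) measurable_const measurable_const
      · exact hval i u
    obtain ⟨e, he⟩ := exists_surjective_nat (ℕ × ℕ × Nd)
    obtain ⟨F, hF, hdom, hfl⟩ := ih A hA hpA (fun n => H (e n)) fun n => hH _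
    have hl : ∀ c ∈ bd m (Fl F m), (∀ σ, c.2 σ ∈ A) ∧
        ∀ j, IsLocallyConstant fun σ => H j (c.2 σ) := by
      intro c hc
      obtain ⟨i, -, c', h1, h2⟩ := mem_bd hc
      rw [h2]
      refine ⟨fun σ => (hfl c' h1).1 _, fun j => ?_⟩
      obtain ⟨n, rfl⟩ := he j
      exact ((hfl c' h1).2 n).comp_continuous (cont_del i)
    generalize hL : bd m (Fl F m) = l at hl
    let γ : Fin l.length → Sq → Sq := fun j => (l.get j).2
    have hγ : ∀ j, (∀ σ, γ j σ ∈ A) ∧ ∀ k, IsLocallyConstant fun σ => H k (γ j σ) :=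
      fun j => hl _ (List.get_mem _ _)
    have hlW : ∀ j i u, IsLocallyConstant fun σ => W i (γ j σ) u := fun j i u =>
      lc_of_ind ((hγ j).2 (1, i, u))
    have hlV : ∀ j i u, IsLocallyConstant fun σ => V i (γ j σ) u := fun j i u =>
      lc_of_ind ((hγ j).2 (2, i, u))
    obtain ⟨y, hy, hb, hw⟩ := gen (T := Sq) (κ := Fin l.length × (ℕ ⊕ ℕ)) s
      (fun σ u => σ 0 u.length + ∑ j, φ (γ j σ) u)
      (fun u => (IsLocallyConstant.iff_continuous _).2 (by
        refine Continuous.add ((continuous_apply _).comp (continuous_apply 0)) ?_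
        exact continuous_finsetSum _ fun j _ => ((hγ j).2 (0, 0, u)).continuous))
      (fun k σ => Sum.elim (fun i => W i (γ k.1 σ)) (fun i => V i (γ k.1 σ)) k.2)
      (by
        rintro ⟨j, i | i⟩ u
        · exact hlW j i u
        · exact hlV j i u)
      (by
        rintro ⟨j, i | i⟩ σ
        · exact (hmain _ ((hγ j).1 σ)).1 i
        · exact (hmain _ ((hγ j).1 σ)).2.1 i)
    have hkey : ∀ j σ, ins m (y σ) (γ j σ) ∈ B ∧ ∀ i n, s.length + i ≤ n →
        V i (γ j σ) (res (y σ) n) → h i (ins m (y σ) (γ j σ)) = val i (γ j σ) (res (y σ) n) := by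
      intro j σ
      refine (hmain _ ((hγ j).1 σ)).2.2 (y σ) ⟨(hb σ).1, (hb σ).2.anti fun v _ => ?_⟩
        fun i N => hw (j, Sum.inl i) σ N
      exact le_add_left (Finset.single_le_sum (f := fun j => φ (γ j σ) v)
        (fun _ _ => Nat.zero_le _) (Finset.mem_univ j))
    refine ⟨Function.update F (m + 1) y, fun j => ?_, fun j σ => ?_, fun c hc => ?_⟩
    · by_cases hj : j = m + 1
      · subst hj; rwa [Function.update_self]
      · rw [Function.update_of_ne hj]; exact hF j
    · by_cases hj : j = m + 1
      · subst hj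
        rw [Function.update_self, Dom, Nat.cofinite_eq_atTop]
        filter_upwards [eventually_ge_atTop s.length] with a ha
        have := (hb σ).2 a ha
        simp only [res_length] at this
        omega
      · rw [Function.update_of_ne hj]; exact hdom j σ
    · rw [Fl.eq_2, Function.update_self, Fl_congr (G := F)
        (fun j hj => Function.update_of_ne (by omega) _ _), hL] at hc
      obtain ⟨c', h1, h2⟩ := mem_cone hc
      obtain ⟨j, rfl⟩ := List.get_of_mem h1
      rw [h2]
      refine ⟨fun σ => (hkey j σ).1, fun i => ?_⟩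
      rw [IsLocallyConstant.iff_eventually_eq]
      intro σ0
      obtain ⟨n, hn, hv⟩ := hw (j, Sum.inr i) σ0 (s.length + i)
      filter_upwards [(IsLocallyConstant.iff_eventually_eq _).1 (lc_res hy n) σ0,
        (IsLocallyConstant.iff_eventually_eq _).1 (hlV j i (res (y σ0) n)) σ0,
        (IsLocallyConstant.iff_eventually_eq _).1 ((hγ j).2 (3, i, res (y σ0) n)) σ0]
        with σ h3 h4 h5
      have h6 := (hkey j σ).2 i n hn (by rw [h3, h4]; exact hv)
      have h7 := (hkey j σ0).2 i n hn hv
      exact h6.trans (by rw [h3]; exact h5.trans h7.symm)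

end Pool.Agent.P.MP_d72269_lc
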