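import Mathlib

/-!
Coherent and trivial families of functions indexed by increasing tuples in `ω^ω`.
-/

namespace Pool.Agent.P.MP_d72269_lc

/-- `𝓝^[n]`: the tuples `f_0 ≤ ⋯ ≤ f_(n-1)` of elements of `ω^ω` (pointwise order), with the
subspace topology from `(ω^ω)^n`. -/
abbrev Chain (n : ℕ) : Type := {f : Fin n → ℕ → ℕ // Monotone f}

/-- the tuple `f` with its `i`-th entry removed. -/
def face {n : ℕ} (i : Fin (n + 1)) (f : Chain (n + 1)) : Chain n :=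
  ⟨fun k => f.1 (i.succAbove k), f.2.comp (Fin.strictMono_succAbove i).monotone⟩

/-- the common part of the sets `I_(f_i) = {(a, b) : b ≤ f_i a}`; this is `I_(f_0)` if `n > 0`
and all of `ω × ω` if `n = 0`. -/
def dom {n : ℕ} (f : Chain n) : Set (ℕ × ℕ) := {x | ∀ i, x.2 ≤ f.1 i x.1}

/-- the alternating sum `∑ (-1)^i φ_(f^i)`. -/
def cob {n : ℕ} (Φ : Chain n → ℕ × ℕ → ℤ) (f : Chain (n + 1)) (x : ℕ × ℕ) : ℤ :=
  ∑ i : Fin (n + 1), (-1) ^ (i : ℕ) * Φ (face i f) x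

/-- `Φ` is `n`-coherent. -/
def Coherent {n : ℕ} (Φ : Chain n → ℕ × ℕ → ℤ) : Prop :=
  ∀ f : Chain (n + 1), {x ∈ dom f | cob Φ f x ≠ 0}.Finite

/-- `Ψ` witnesses that `Φ` is `(n+1)`-trivial. -/
def Trivialises {n : ℕ} (Ψ : Chain n → ℕ × ℕ → ℤ) (Φ : Chain (n + 1) → ℕ × ℕ → ℤ) : Prop :=
  ∀ f : Chain (n + 1), {x ∈ dom f | cob Ψ f x ≠ Φ f x}.Finite

/-- the graph of `Φ` is analytic. -/
def AnalyticFamily {n : ℕ} (Φ : Chain n → ℕ × ℕ → ℤ) : Prop :=
  MeasureTheory.AnalyticSet {p : Chain n × (ℕ × ℕ → ℤ) | p.2 = Φ p.1}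

/-- `A` is universally Baire: its preimage under every continuous map from a regular Hausdorff
space has the Baire property. -/
def UnivBaire {X : Type} [TopologicalSpace X] (A : Set X) : Prop :=
  ∀ (Y : Type) [TopologicalSpace Y] [T3Space Y] (g : Y → X), Continuous g →
    BaireMeasurableSet (g ⁻¹' A)

/-- `Φ` is universally Baire measurable. -/
def UnivBaireFamily {n : ℕ} (Φ : Chain n → ℕ × ℕ → ℤ) : Prop :=
  ∀ (x : ℕ × ℕ) (a : ℤ), UnivBaire {f | Φ f x = a}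

end Pool.Agent.P.MP_d72269_lc
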