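import Pool.Agent.P.MP_d72269_lc.Sys

/-!
A set all of whose continuous preimages in regular Hausdorff spaces have the Baire property agrees
with a measurable set on a large set, for every filter with essential unions.
-/

namespace Pool.Agent.P.MP_d72269_lc

open Filter Topology Set

theorem exists_ultra {P : Type} {L : Filter P} [CountableInterFilter L] {𝓐 : Set (Set P)}
    (h𝓐 : 𝓐.Countable) :
    ∀ᶠ p in L, ∃ U : Ultrafilter P, (U : Filter P) ≤ L ∧ ∀ B ∈ 𝓐, p ∈ B → B ∈ U := by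
  have h1 : ∀ᶠ p in L, ∀ T ∈ {T : Set (Set P) | T.Finite ∧ T ⊆ 𝓐},
      p ∈ ⋂₀ T → ∃ᶠ q in L, q ∈ ⋂₀ T := by
    refine (eventually_countable_ball (countable_ofPred_finite_subset h𝓐)).2 fun T _ => ?_
    by_cases h : ∃ᶠ q in L, q ∈ ⋂₀ T
    · exact Eventually.of_forall fun _ _ => h
    · filter_upwards [not_frequently.1 h] with p hp hp' using (hp hp').elim
  filter_upwards [h1] with p hp
  have hne : NeBot (L ⊓ generate {B | B ∈ 𝓐 ∧ p ∈ B}) := by
    rw [inf_neBot_iff]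
    intro s hs s' hs'
    obtain ⟨T, h2, h3, h4⟩ := mem_generate_iff.1 hs'
    obtain ⟨q, hq1, hq2⟩ := frequently_iff.1
      (hp T ⟨h3, fun B hB => (h2 hB).1⟩ fun B hB => (h2 hB).2) hs
    exact ⟨q, hq1, h4 hq2⟩
  refine ⟨Ultrafilter.of (L ⊓ generate {B | B ∈ 𝓐 ∧ p ∈ B}),
    (Ultrafilter.of_le _).trans inf_le_left, fun B hB hp => ?_⟩
  exact ((Ultrafilter.of_le _).trans inf_le_right) (mem_generate_of_mem ⟨hB, hp⟩)

variable {P : Type} [MeasurableSpace P] [TopologicalSpace P]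

/-- points together with the trace on the measurable sets of an ultrafilter converging to them. -/
def St (L : Filter P) : Type :=
  {w : P × ({B : Set P // MeasurableSet B} → Bool) //
    ∃ U : Ultrafilter P, (U : Filter P) ≤ L ∧ (U : Filter P) ≤ 𝓝 w.1 ∧
      ∀ B, w.2 B = true ↔ B.1 ∈ U}

instance (L : Filter P) : TopologicalSpace (St L) := instTopologicalSpaceSubtype

instance (L : Filter P) [T3Space P] : T3Space (St L) := by
  unfold St; infer_instance

noncomputable def St.uf {L : Filter P} (w : St L) : Ultrafilter P := w.2.choose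

theorem St.uf_le {L : Filter P} (w : St L) : (w.uf : Filter P) ≤ L := w.2.choose_spec.1

theorem St.uf_nhds {L : Filter P} (w : St L) : (w.uf : Filter P) ≤ 𝓝 w.1.1 :=
  w.2.choose_spec.2.1

theorem St.mem_uf {L : Filter P} (w : St L) (B : {B : Set P // MeasurableSet B}) :
    w.1.2 B = true ↔ B.1 ∈ w.uf := w.2.choose_spec.2.2 B

theorem St.isOpen_br {L : Filter P} {B : Set P} (hB : MeasurableSet B) :
    IsOpen {w : St L | B ∈ w.uf} := by
  have : {w : St L | B ∈ w.uf} = (fun w : St L => w.1.2 ⟨B, hB⟩) ⁻¹' {true} := by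
    ext w
    exact (w.mem_uf ⟨B, hB⟩).symm
  rw [this]
  exact (isOpen_discrete _).preimage
    ((continuous_apply _).comp (continuous_snd.comp continuous_subtype_val))

theorem St.basis [RegularSpace P] [OpensMeasurableSpace P] {L : Filter P} (w : St L)
    {O : Set (St L)} (hO : O ∈ 𝓝 w) :
    ∃ B, MeasurableSet B ∧ B ∈ w.uf ∧ ∀ v : St L, B ∈ v.uf → v ∈ O := by
  let 𝓕 : Filter (St L) :=
    { sets := {O | ∃ B, MeasurableSet B ∧ B ∈ w.uf ∧ ∀ v : St L, B ∈ v.uf → v ∈ O}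
      univ_sets := ⟨univ, MeasurableSet.univ, univ_mem, fun _ _ => trivial⟩
      sets_of_superset := fun ⟨B, h1, h2, h3⟩ h => ⟨B, h1, h2, fun v hv => h (h3 v hv)⟩
      inter_sets := fun ⟨B, h1, h2, h3⟩ ⟨C, h4, h5, h6⟩ =>
        ⟨B ∩ C, h1.inter h4, inter_mem h2 h5, fun v hv =>
          ⟨h3 v (mem_of_superset hv inter_subset_left),
            h6 v (mem_of_superset hv inter_subset_right)⟩⟩ }
  have h : Tendsto (fun v : St L => v) 𝓕 (𝓝 w) := by
    refine tendsto_subtype_rng.2 (Tendsto.prodMk_nhds (f := 𝓕) (mx := fun v : St L => v.1.1)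
      (my := fun v : St L => v.1.2) ?_ (tendsto_pi_nhds.2 fun B => ?_))
    · intro N hN
      obtain ⟨C, h1, h2, h3⟩ := exists_mem_nhds_isClosed_subset hN
      refine ⟨C, h2.measurableSet, w.uf_nhds h1, fun v hv => h3 ?_⟩
      exact h2.mem_of_tendsto (f := fun p => p) (b := v.uf) v.uf_nhds hv
    · refine (tendsto_pure.2 ?_).mono_right (pure_le_nhds _)
      by_cases hB : B.1 ∈ w.uf
      · exact ⟨B.1, B.2, hB, fun v hv => ((v.mem_uf B).2 hv).trans ((w.mem_uf B).2 hB).symm⟩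
      · refine ⟨B.1ᶜ, B.2.compl, Ultrafilter.compl_mem_iff_notMem.2 hB, fun v hv => ?_⟩
        have h1 := mt (v.mem_uf B).1 (Ultrafilter.compl_mem_iff_notMem.1 hv)
        have h2 := mt (w.mem_uf B).1 hB
        change v.1.2 B = w.1.2 B
        rw [Bool.not_eq_true] at h1 h2
        rw [h1, h2]
  exact h hO

theorem St.exists_pt [SecondCountableTopology P] {L : Filter P} [CountableInterFilter L]
    {𝓐 : Set (Set P)} (h𝓐 : 𝓐.Countable) (hm : ∀ B ∈ 𝓐, MeasurableSet B) :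
    ∀ᶠ p in L, ∃ w : St L, w.1.1 = p ∧ ∀ B ∈ 𝓐, p ∈ B → B ∈ w.uf := by
  classical
  filter_upwards [exists_ultra (L := L)
    (h𝓐.union (TopologicalSpace.countable_countableBasis P))] with p ⟨U, h1, h2⟩
  have h3 : (U : Filter P) ≤ 𝓝 p := by
    intro N hN
    obtain ⟨B, hB, hp, hN⟩ := (TopologicalSpace.isBasis_countableBasis P).mem_nhds_iff.1 hN
    exact mem_of_superset (h2 B (Or.inr hB) hp) hN
  let w : St L := ⟨(p, fun B => decide (B.1 ∈ U)), U, h1, h3, fun B => by simp⟩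
  refine ⟨w, rfl, fun B hB hp => (w.mem_uf ⟨B, hm B hB⟩).1 ?_⟩
  simpa [w] using h2 B (Or.inl hB) hp

theorem ub_meas [T3Space P] [SecondCountableTopology P] [OpensMeasurableSpace P] {L : Filter P}
    (hL : Sys L) {A : Set P}
    (hA : ∀ (Y : Type) [TopologicalSpace Y] [T3Space Y] (g : Y → P), Continuous g →
      BaireMeasurableSet (g ⁻¹' A)) :
    ∃ B, MeasurableSet B ∧ ∀ᶠ p in L, (p ∈ A ↔ p ∈ B) := by
  have := hL.cnt
  obtain ⟨O, hO, hres⟩ := (hA (St L) (fun w => w.1.1)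
    (continuous_fst.comp continuous_subtype_val)).residualEq_isOpen
  obtain ⟨S, hS1, hS2, hS3, hS4⟩ := mem_residual_iff.1 hres
  have hes := fun t : Set (St L) =>
    hL.es {B | MeasurableSet B ∧ ∀ v : St L, B ∈ v.uf → v ∈ t} fun C hC => hC.1
  choose 𝓓 h1 h2 h3 using hes
  have hm : ∀ t, MeasurableSet (⋃₀ 𝓓 t) := fun t =>
    MeasurableSet.sUnion (h2 t) fun C hC => (h1 t hC).1
  have hK : ∀ t, IsOpen t → ∀ w ∈ t, ⋃₀ 𝓓 t ∈ w.uf := by
    intro t ht w hw
    obtain ⟨B, h4, h5, h6⟩ := w.basis (ht.mem_nhds hw)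
    filter_upwards [h5, w.uf_le (h3 t B ⟨h4, h6⟩)] with p hp1 hp2 using hp2 hp1
  have hlarge : ∀ (t : Set (St L)) (D : Set P), Dense t → MeasurableSet D →
      (∀ w ∈ t, D ∈ w.uf) → ∀ᶠ p in L, p ∈ D := by
    intro t D ht hD hw
    by_contra hc
    obtain ⟨p, hp, w, -, h4⟩ := ((not_eventually.1 hc).and_eventually
      (St.exists_pt (L := L) (countable_singleton Dᶜ) (by simpa using hD.compl))).exists
    obtain ⟨v, hv1, hv2⟩ := ht.inter_open_nonempty _ (St.isOpen_br hD.compl)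
      ⟨w, h4 _ rfl hp⟩
    exact Ultrafilter.compl_mem_iff_notMem.1 hv1 (hw v hv2)
  have h4 : ∀ᶠ p in L, ∀ t ∈ S, p ∈ ⋃₀ 𝓓 t :=
    (eventually_countable_ball hS3).2 fun t ht =>
      hlarge t _ (hS2 t ht) (hm t) (hK t (hS1 t ht))
  have h5 : ∀ᶠ p in L, p ∈ ⋃₀ 𝓓 O ∪ ⋃₀ 𝓓 (closure O)ᶜ := by
    refine hlarge (O ∪ (closure O)ᶜ) _ ?_ ((hm _).union (hm _)) ?_
    · intro w
      rw [closure_union]
      by_cases hw : w ∈ closure O
      · exact Or.inl hw
      · exact Or.inr (subset_closure hw)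
    · rintro w (hw | hw)
      · exact mem_of_superset (hK _ hO w hw) subset_union_left
      · exact mem_of_superset (hK _ isClosed_closure.isOpen_compl w hw) subset_union_right
  have h6 := St.exists_pt (L := L) (𝓐 := (⋃ t ∈ S, 𝓓 t) ∪ (𝓓 O ∪ 𝓓 (closure O)ᶜ))
    ((hS3.biUnion fun t _ => h2 t).union ((h2 _).union (h2 _))) (by
      rintro B (hB | hB | hB)
      · obtain ⟨t, -, hB⟩ := mem_iUnion₂.1 hB
        exact (h1 t hB).1
      · exact (h1 _ hB).1
      · exact (h1 _ hB).1)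
  refine ⟨⋃₀ 𝓓 O, hm O, ?_⟩
  filter_upwards [h4, h5, h6] with p hp4 hp5 ⟨w, hw1, hw2⟩
  have h7 : w ∈ ⋂₀ S := by
    intro t ht
    obtain ⟨B, hB, hp⟩ := hp4 t ht
    exact (h1 t hB).2 w (hw2 B (Or.inl (mem_iUnion₂.2 ⟨t, ht, hB⟩)) hp)
  have h8 : (w.1.1 ∈ A) = (w ∈ O) := hS4 h7
  rw [← hw1, h8, hw1]
  constructor
  · intro hw
    rcases hp5 with h | ⟨B, hB, hp⟩
    · exact h
    · exact ((h1 _ hB).2 w (hw2 B (Or.inr (Or.inr hB)) hp) (subset_closure hw)).elim
  · rintro ⟨B, hB, hp⟩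
    exact (h1 _ hB).2 w (hw2 B (Or.inr (Or.inl hB)) hp)

end Pool.Agent.P.MP_d72269_lc
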