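import Pool.Agent.P.MP_d72269_lc.Defs
import Pool.Agent.P.MP_d72269_lc.CR
import Pool.Agent.P.MP_d72269_lc.UB

/-!
Assembly: trivialisation of a universally Baire coherent family by continuous substitutions.
-/

namespace Pool.Agent.P.MP_d72269_lc

open Filter Topology Set MeasureTheory

def pad {n : ℕ} (f : Chain n) : Sq := fun k => if h : k < n then f.1 ⟨k, h⟩ else 0

def mkC (n : ℕ) (σ : Sq) : Chain n :=
  ⟨fun i => partialSups σ i, fun _ _ h => (partialSups σ).monotone h⟩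

theorem cont_pad {n : ℕ} : Continuous (pad (n := n)) := by
  refine continuous_pi fun k => ?_
  simp only [pad]
  split_ifs
  · exact (continuous_apply _).comp continuous_subtype_val
  · exact continuous_const

theorem cont_ps (k : ℕ) : Continuous fun σ : Sq => partialSups σ k := by
  refine continuous_pi fun a => ?_
  simp only [partialSups_eq_sup'_range, Finset.sup'_apply]
  exact Continuous.finset_sup'_apply _ fun i _ => (continuous_apply a).comp (continuous_apply i)

theorem cont_mkC (n : ℕ) : Continuous (mkC n) :=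
  Continuous.subtype_mk (continuous_pi fun i : Fin n => cont_ps i) _

theorem z_pad {n : ℕ} (f : Chain n) : Z n (pad f) := fun _ hk => dif_neg (not_lt.2 hk)

theorem inc_pad {n : ℕ} (f : Chain n) : Inc n (pad f) := by
  intro i j hij hj
  simp only [pad, dif_pos hj, dif_pos (hij.trans_lt hj)]
  exact f.2 hij

theorem val_succAbove {n : ℕ} (i : Fin (n + 1)) (k : Fin n) :
    ((i.succAbove k : Fin (n + 1)) : ℕ) = if (k : ℕ) < i then (k : ℕ) else k + 1 := by
  unfold Fin.succAbove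
  by_cases h : (k : ℕ) < i
  · rw [if_pos h, if_pos (show k.castSucc < i from h)]; rfl
  · rw [if_neg h, if_neg (show ¬ k.castSucc < i from h)]; rfl

theorem pad_face {n : ℕ} (i : Fin (n + 1)) (f : Chain (n + 1)) :
    pad (face i f) = del i (pad f) := by
  funext k
  have hi := i.2
  by_cases hk : k < n
  · have h1 := val_succAbove i ⟨k, hk⟩
    simp only [pad, del, face, dif_pos hk]
    by_cases h : k < i
    · rw [if_pos h, dif_pos (by omega)]
      rw [if_pos h] at h1
      exact congrArg f.1 (Fin.ext h1)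
    · rw [if_neg h, dif_pos (by omega)]
      rw [if_neg h] at h1
      exact congrArg f.1 (Fin.ext h1)
  · simp only [pad, del, dif_neg hk]
    rw [if_neg (by omega), dif_neg (by omega)]

theorem mkC_of_inc {n : ℕ} {σ : Sq} (h : Inc n σ) (i : Fin n) : (mkC n σ).1 i = σ i :=
  le_antisymm (partialSups_le _ _ _ fun j hj => h j i hj i.2) (le_partialSups σ i)

theorem mkC_pad {n : ℕ} (f : Chain n) : mkC n (pad f) = f := by
  refine Subtype.ext (funext fun i => ?_)
  rw [mkC_of_inc (inc_pad f)]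
  simp [pad]

theorem face_mkC {n : ℕ} {ρ : Sq} (h : Inc (n + 1) ρ) (i : Fin (n + 1)) :
    face i (mkC (n + 1) ρ) = mkC n (del i ρ) := by
  refine Subtype.ext (funext fun k => ?_)
  rw [mkC_of_inc (h.del i)]
  change (mkC (n + 1) ρ).1 (i.succAbove k) = _
  rw [mkC_of_inc h, val_succAbove, del]
  split_ifs <;> rfl

theorem cob_mkC {n : ℕ} (Φ : Chain n → ℕ × ℕ → ℤ) {ρ : Sq} (h : Inc (n + 1) ρ) (x : ℕ × ℕ) :
    cob Φ (mkC (n + 1) ρ) x = dd n (fun σ => Φ (mkC n σ) x) ρ := by
  simp only [cob, face_mkC h, dd]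
  exact Fin.sum_univ_eq_sum_range (fun i => (-1) ^ i * Φ (mkC n (del i ρ)) x) (n + 1)

theorem mem_dom {n : ℕ} {f : Chain (n + 1)} {x : ℕ × ℕ} : x ∈ dom f ↔ x.2 ≤ f.1 0 x.1 :=
  ⟨fun h => h 0, fun h i => h.trans (f.2 (Fin.zero_le i) x.1)⟩

theorem dom_face {n : ℕ} {f : Chain (n + 1)} {x : ℕ × ℕ} (h : x ∈ dom f) (i : Fin (n + 1)) :
    x ∈ dom (face i f) := fun k => h (i.succAbove k)

theorem ev_col (f : Om) {Q : ℕ → Prop} (h : ∀ᶠ a in cofinite, Q a) :
    ∀ᶠ x : ℕ × ℕ in cofinite, x.2 ≤ f x.1 → Q x.1 := by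
  rw [eventually_cofinite] at h ⊢
  refine (h.biUnion fun a _ => (finite_singleton a).prod (finite_Iic (f a))).subset ?_
  intro x hx
  simp only [mem_ofPred_eq, Classical.not_imp] at hx
  exact mem_biUnion hx.2 ⟨rfl, hx.1⟩

theorem coh_ev {n : ℕ} {Φ : Chain n → ℕ × ℕ → ℤ} (hc : Coherent Φ) {ρ : Sq} (h : Inc (n + 1) ρ) :
    ∀ᶠ x : ℕ × ℕ in cofinite, x.2 ≤ ρ 0 x.1 → dd n (fun σ => Φ (mkC n σ) x) ρ = 0 := by
  rw [eventually_cofinite]
  refine (hc (mkC (n + 1) ρ)).subset fun x hx => ?_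
  simp only [mem_ofPred_eq, Classical.not_imp] at hx
  refine ⟨mem_dom.2 ?_, by rw [cob_mkC Φ h]; exact hx.2⟩
  rw [mkC_of_inc h]
  exact hx.1

theorem meas_inc (m : ℕ) : Measurable (Inc m) :=
  Measurable.forall fun i => Measurable.forall fun j => measurable_const.imp
    (measurable_const.imp (Measurable.forall fun a => measurableSet_setOfPred.1 (measurableSet_le
      ((measurable_pi_apply a).comp (measurable_pi_apply i))
      ((measurable_pi_apply a).comp (measurable_pi_apply j)))))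

/-- a positive measurable set on which the coherence is exact beyond a fixed column. -/
theorem exists_exact {n : ℕ} {Φ : Chain n → ℕ × ℕ → ℤ} (hΦ : UnivBaireFamily Φ)
    (hc : Coherent Φ) :
    ∃ (k : ℕ) (B : Set Sq), MeasurableSet B ∧ (∃ᶠ σ in LL (n + 1), σ ∈ B) ∧
      ∀ ρ ∈ B, Inc (n + 1) ρ ∧ ∀ x : ℕ × ℕ, k ≤ x.1 → x.2 ≤ ρ 0 x.1 →
        dd n (fun σ => Φ (mkC n σ) x) ρ = 0 := by
  have hS := sys_LL (n + 1)
  have := hS.cnt
  have h1 : ∀ (x : ℕ × ℕ) (i : ℕ), ∃ g : Sq → ℤ, Measurable g ∧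
      ∀ᶠ σ in LL (n + 1), Φ (mkC n (del i σ)) x = g σ := by
    intro x i
    have h2 := fun a : ℤ => ub_meas hS (A := {σ | Φ (mkC n (del i σ)) x = a})
      fun Y _ _ g hg => hΦ x a Y (fun y => mkC n (del i (g y)))
        ((cont_mkC n).comp ((cont_del i).comp hg))
    choose B hB1 hB2 using h2
    obtain ⟨e, he⟩ := exists_surjective_nat ℤ
    refine ⟨fun σ => e (sInf {j | σ ∈ B (e j)}),
      measurable_from_nat.comp (meas_sInf fun j => measurable_mem.2 (hB1 _)), ?_⟩
    filter_upwards [eventually_countable_forall.2 hB2] with σ hσ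
    obtain ⟨j, hj⟩ := he (Φ (mkC n (del i σ)) x)
    exact (hσ _).2 (Nat.sInf_mem (s := {j | σ ∈ B (e j)}) ⟨j, (hσ _).1 hj.symm⟩)
  choose g hg1 hg2 using h1
  obtain ⟨T, hT1, hT2, hT3⟩ := hS.meas _ (eventually_countable_forall.2 fun x =>
    eventually_countable_forall.2 (hg2 x))
  have hT4 : ∀ ρ ∈ T, ∀ x, dd n (fun σ => Φ (mkC n σ) x) ρ =
      ∑ i ∈ Finset.range (n + 1), (-1) ^ i * g x i ρ := fun ρ hρ x =>
    Finset.sum_congr rfl fun i _ => by rw [← hT3 hρ x i]
  let B : ℕ → Set Sq := fun k => {ρ | ρ ∈ T ∧ Inc (n + 1) ρ ∧ ∀ x : ℕ × ℕ, k ≤ x.1 →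
    x.2 ≤ ρ 0 x.1 → ∑ i ∈ Finset.range (n + 1), (-1) ^ i * g x i ρ = 0}
  have h3 : ∃ᶠ ρ in LL (n + 1), ∃ k, ρ ∈ B k := by
    refine ((inc_pos (n + 1)).and_eventually hT1).mono fun ρ hρ => ?_
    obtain ⟨k, hk⟩ := ((eventually_cofinite.1 (coh_ev hc hρ.1)).image Prod.fst).bddAbove
    refine ⟨k + 1, hρ.2, hρ.1, fun x h4 h5 => ?_⟩
    by_contra h6
    rw [← hT4 ρ hρ.2] at h6
    have := hk ⟨x, fun h => h6 (h h5), rfl⟩
    omega
  obtain ⟨k, hk⟩ := freq_exists h3
  refine ⟨k, B k, measurableSet_setOfPred.2 ((measurable_mem.2 hT2).and ((meas_inc _).and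
    (Measurable.forall fun x => measurable_const.imp (Measurable.imp ?_ ?_)))), hk,
    fun ρ hρ => ⟨hρ.2.1, fun x h4 h5 => by rw [hT4 ρ hρ.1]; exact hρ.2.2 x h4 h5⟩⟩
  · exact measurableSet_setOfPred.1 (measurableSet_le measurable_const
      ((measurable_pi_apply x.1).comp (measurable_pi_apply 0)))
  · exact measurableSet_setOfPred.1 (measurableSet_eq_fun
      (Finset.measurable_sum _ fun i _ => measurable_const.mul (hg1 x i)) measurable_const)

theorem ev_all {α β : Type*} {l : List α} {L : Filter β} {Q : α → β → Prop}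
    (h : ∀ c ∈ l, ∀ᶠ x in L, Q c x) : ∀ᶠ x in L, ∀ c ∈ l, Q c x := by
  induction l with
  | nil => simp
  | cons c l ih =>
    filter_upwards [h c (by simp), ih fun c hc => h c (by simp [hc])] with x h1 h2 c' hc'
    rcases List.mem_cons.1 hc' with rfl | h3
    · exact h1
    · exact h2 c' h3

theorem main_subst {n : ℕ} {Φ : Chain (n + 1) → ℕ × ℕ → ℤ} (hΦ : UnivBaireFamily Φ)
    (hc : Coherent Φ) :
    ∃ (m : ℕ) (ε : Fin m → ℤ) (γ : Fin m → ℕ × ℕ → Chain n → Chain (n + 1)),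
      (∀ j x, Continuous (γ j x)) ∧ Trivialises (fun g x => ∑ j, ε j * Φ (γ j x g) x) Φ := by
  classical
  obtain ⟨k, B, hB, hpos, hex⟩ := exists_exact hΦ hc
  obtain ⟨F, hF, hdom, hfl⟩ := cr (n + 2) B hB hpos (fun _ _ => 0) fun _ => measurable_const
  have hinc : ∀ c ∈ Fl F (n + 2), ∀ σ, Inc (n + 2) (c.2 σ) :=
    fun c hc σ => (hex _ ((hfl c hc).1 σ)).1
  have hdom1 : ∀ f, Dom f (F 1 (ins 0 f 0)) := fun f => by
    simpa only [ins_self] using hdom 1 (ins 0 f 0)
  let G : ℕ × ℕ → Om := fun x =>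
    if h : ∃ g : Om, x.2 ≤ F 1 (ins 0 g 0) x.1 then h.choose else 0
  have hG : ∀ (x : ℕ × ℕ) (g : Om), x.2 ≤ F 1 (ins 0 g 0) x.1 →
      x.2 ≤ F 1 (ins 0 (G x) 0) x.1 := by
    intro x g hg
    have h : ∃ g : Om, x.2 ≤ F 1 (ins 0 g 0) x.1 := ⟨g, hg⟩
    simp only [G, dif_pos h]
    exact h.choose_spec
  let θ : ℕ × ℕ → Sq → ℤ := fun x σ => Φ (mkC (n + 1) σ) x
  let l : List (ℤ × (ℕ × ℕ → Chain n → Chain (n + 1))) :=
    ((Fl F (n + 1)).map fun c => (c.1, fun x τ => mkC (n + 1) (c.2 (ins 0 (G x) (pad τ))))) ++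
      ((HL F n).map fun c => (-c.1, fun _ τ => mkC (n + 1) (c.2 (pad τ))))
  have hsum : ∀ (τ : Chain n) (x : ℕ × ℕ),
      ∑ j : Fin l.length, (l.get j).1 * Φ ((l.get j).2 x τ) x =
        ev (Fl F (n + 1)) (θ x) (ins 0 (G x) (pad τ)) + (-1) * ev (HL F n) (θ x) (pad τ) := by
    intro τ x
    refine (Fin.sum_univ_fun_getElem l fun c => c.1 * Φ (c.2 x τ) x).trans ?_
    rw [← ev_scale]
    simp only [l, List.map_append, List.sum_append, List.map_map, ev, scale, θ, Function.comp_def,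
      neg_mul, one_mul]
  refine ⟨l.length, fun j => (l.get j).1, fun j => (l.get j).2, fun j x => ?_, fun f => ?_⟩
  · change Continuous ((l.get j).2 x)
    rcases List.mem_append.1 (List.get_mem l j) with h | h
    · obtain ⟨c, h1, h2⟩ := List.mem_map.1 h
      rw [← h2]
      exact (cont_mkC _).comp ((cont_Fl hF _ c h1).comp (cont_ins 0 continuous_const cont_pad))
    · obtain ⟨c, h1, h2⟩ := List.mem_map.1 h
      rw [← h2]
      exact (cont_mkC _).comp ((cont_HL hF _ c h1).comp cont_pad)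
  · have hz := z_pad f
    have hi := inc_pad f
    have h0 : pad f 0 = f.1 0 := by simp [pad]
    have e1 : ∀ᶠ x : ℕ × ℕ in cofinite, x.2 ≤ pad f 0 x.1 → k ≤ x.1 :=
      ev_col _ (by rw [Nat.cofinite_eq_atTop]; exact eventually_ge_atTop k)
    have e2 : ∀ᶠ x : ℕ × ℕ in cofinite, ∀ i ∈ Finset.range (n + 1),
        x.2 ≤ pad f 0 x.1 → pad f 0 x.1 ≤ F 1 (ins 0 (pad f i) 0) x.1 :=
      (eventually_all_finset _).2 fun i h =>
        ev_col _ ((hdom1 _).of_le (hi 0 i (Nat.zero_le _) (Finset.mem_range.1 h)))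
    have e3 : ∀ᶠ x : ℕ × ℕ in cofinite, ∀ c ∈ HL F (n + 1),
        x.2 ≤ pad f 0 x.1 → dd (n + 1) (θ x) (c.2 (pad f)) = 0 := by
      refine ev_all fun c h => ?_
      obtain ⟨h1, h2⟩ := good_HL hinc hdom1 (n + 1) (by omega) c h _ hi hz
      filter_upwards [coh_ev hc h1, ev_col (pad f 0) h2] with x h3 h4 h5
      exact h3 (h5.trans (h4 h5))
    refine (eventually_cofinite.1 (e1.and (e2.and e3))).subset ?_
    rintro x ⟨hx, hne⟩ ⟨h1, h2, h3⟩
    apply hne
    have hx0 : x.2 ≤ pad f 0 x.1 := h0 ▸ mem_dom.1 hx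
    have h4 : ev (HL F (n + 1)) (dd (n + 1) (θ x)) (pad f) = 0 := ev_zero fun c h => h3 c h hx0
    have h5 : ev (Fl F (n + 2)) (dd (n + 1) (θ x)) (ins 0 (G x) (pad f)) = 0 := by
      refine ev_zero fun c h => (hex _ ((hfl c h).1 _)).2 x (h1 hx0) ?_
      obtain ⟨i, h6, h7⟩ := fl_first (n + 1) (hz.ins_zero (G x)) c h
      rw [h7]
      cases i with
      | zero =>
        rw [ins_self]
        exact hG x _ (hx0.trans (h2 0 (by simp) hx0))
      | succ i =>
        have : ins 0 (G x) (pad f) (i + 1) = pad f i := by simp [ins]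
        rw [this]
        exact hx0.trans (h2 i (Finset.mem_range.2 (by omega)) hx0)
    rw [ev_HL_dd F n hz] at h4
    rw [ev_Fl_dd, dd_ins_zero] at h5
    have h6 : cob (fun g x => ∑ j : Fin l.length, (l.get j).1 * Φ ((l.get j).2 x g) x) f x =
        dd n (fun ρ => ev (Fl F (n + 1)) (θ x) (ins 0 (G x) ρ) +
          (-1) * ev (HL F n) (θ x) ρ) (pad f) := by
      simp only [cob, hsum, pad_face, dd]
      exact Fin.sum_univ_eq_sum_range (fun i => (-1) ^ i * (ev (Fl F (n + 1)) (θ x)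
        (ins 0 (G x) (del i (pad f))) + (-1) * ev (HL F n) (θ x) (del i (pad f)))) (n + 1)
    have h7 : θ x (pad f) = Φ f x := by simp only [θ, mkC_pad]
    rw [h6, dd_add, dd_mul]
    linarith

/-! ### complexity of the trivialisation -/

theorem isClosed_dom {n : ℕ} (x : ℕ × ℕ) : IsClopen {f : Chain n | x ∈ dom f} := by
  have : {f : Chain n | x ∈ dom f} = ⋂ i, (fun f : Chain n => f.1 i x.1) ⁻¹' {a | x.2 ≤ a} := by
    ext f; simp [dom]
  rw [this]
  exact isClopen_iInter_of_finite fun i => (isClopen_discrete _).preimage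
    ((continuous_apply x.1).comp ((continuous_apply i).comp continuous_subtype_val))

theorem polish_chain (n : ℕ) : PolishSpace (Chain n) := by
  refine IsClosed.polishSpace (s := {f : Fin n → ℕ → ℕ | Monotone f}) ?_
  have : {f : Fin n → ℕ → ℕ | Monotone f} = ⋂ i, ⋂ j, ⋂ _ : i ≤ j, ⋂ a, {f | f i a ≤ f j a} := by
    ext f
    simp only [mem_ofPred_eq, mem_iInter]
    exact ⟨fun h i j hij a => h hij a, fun h i j hij a => h i j hij a⟩
  rw [this]
  refine isClosed_iInter fun i => isClosed_iInter fun j => isClosed_iInter fun _ =>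
    isClosed_iInter fun a => isClosed_le ?_ ?_
  · exact (continuous_apply a).comp (continuous_apply i)
  · exact (continuous_apply a).comp (continuous_apply j)

theorem AnalyticFamily.measurable {n : ℕ} {Φ : Chain n → ℕ × ℕ → ℤ} (h : AnalyticFamily Φ)
    (x : ℕ × ℕ) : Measurable fun f => Φ f x := by
  have := polish_chain n
  have key : ∀ S : Set ℤ, AnalyticSet {f | Φ f x ∈ S} := by
    intro S
    have h1 : AnalyticSet {p : Chain n × (ℕ × ℕ → ℤ) | p.2 x ∈ S} :=
      ((isClosed_discrete S).preimage ((continuous_apply x).comp continuous_snd)).analyticSet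
    have h2 : AnalyticSet (⋂ b : Bool, bif b then {p : Chain n × (ℕ × ℕ → ℤ) | p.2 = Φ p.1}
        else {p | p.2 x ∈ S}) := AnalyticSet.iInter fun b => by
      cases b
      · exact h1
      · exact h
    convert h2.image_of_continuous continuous_fst using 1
    ext f
    simp only [mem_ofPred_eq, mem_image, mem_iInter, Bool.forall_bool, cond_false, cond_true]
    constructor
    · exact fun hf => ⟨(f, Φ f), ⟨hf, rfl⟩, rfl⟩
    · rintro ⟨p, ⟨h3, h4⟩, rfl⟩
      rwa [h4] at h3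
  exact fun S _ => (key S).measurableSet_of_compl (key Sᶜ)

theorem analyticFamily_of_measurable {n : ℕ} {Φ : Chain n → ℕ × ℕ → ℤ}
    (h : ∀ x, Measurable fun f => Φ f x) : AnalyticFamily Φ := by
  have := polish_chain n
  have : {p : Chain n × (ℕ × ℕ → ℤ) | p.2 = Φ p.1} = ⋂ x, {p | p.2 x = Φ p.1 x} := by
    ext p; simp [funext_iff]
  have hb : BorelSpace (Chain n × (ℕ × ℕ → ℤ)) := Prod.borelSpace
  refine MeasurableSet.analyticSet ?_
  rw [this]
  exact MeasurableSet.iInter fun x => measurableSet_eq_fun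
    ((measurable_pi_apply x).comp measurable_snd) ((h x).comp measurable_fst)

theorem AnalyticFamily.univBaire {n : ℕ} {Φ : Chain n → ℕ × ℕ → ℤ} (h : AnalyticFamily Φ) :
    UnivBaireFamily Φ := by
  intro x a Y _ _ g hg
  borelize Y
  exact (hg.measurable (h.measurable x (measurableSet_singleton a))).baireMeasurableSet

theorem main {n : ℕ} {Φ : Chain (n + 1) → ℕ × ℕ → ℤ}
    (hΦ : AnalyticFamily Φ ∨ UnivBaireFamily Φ) (hc : Coherent Φ) :
    ∃ Ψ : Chain n → ℕ × ℕ → ℤ, Trivialises Ψ Φ ∧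
      (∃ (m : ℕ) (ε : Fin m → ℤ) (γ : Fin m → ℕ × ℕ → Chain n → Chain (n + 1)),
        (∀ j x, Continuous (γ j x)) ∧
        ∀ g, Ψ g = (dom g).indicator fun x => ∑ j, ε j * Φ (γ j x g) x) ∧
      (Continuous Φ → Continuous Ψ) ∧ (AnalyticFamily Φ → AnalyticFamily Ψ) ∧
      UnivBaireFamily Ψ := by
  classical
  have hU : UnivBaireFamily Φ := hΦ.elim AnalyticFamily.univBaire id
  obtain ⟨m, ε, γ, hγ, ht⟩ := main_subst hU hc
  have hind : ∀ (g : Chain n) (x : ℕ × ℕ),
      (dom g).indicator (fun x => ∑ j, ε j * Φ (γ j x g) x) x =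
        {g : Chain n | x ∈ dom g}.indicator (fun g => ∑ j, ε j * Φ (γ j x g) x) g := by
    intro g x
    simp only [Set.indicator_apply, mem_ofPred_eq]
  refine ⟨fun g => (dom g).indicator fun x => ∑ j, ε j * Φ (γ j x g) x, fun f => ?_,
    ⟨m, ε, γ, hγ, fun _ => rfl⟩, fun hΦ => continuous_pi fun x => ?_,
    fun hΦ => analyticFamily_of_measurable fun x => ?_, fun x a Y _ _ g hg => ?_⟩
  · refine (ht f).subset fun x hx => ⟨hx.1, ?_⟩
    have h1 := hx.2
    simp only [cob, Set.indicator_of_mem (dom_face hx.1 _)] at h1 ⊢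
    exact h1
  · simp only [hind]
    exact (isClosed_dom x).continuous_indicator (continuous_finsetSum _ fun j _ =>
      continuous_const.mul ((continuous_apply x).comp (hΦ.comp (hγ j x))))
  · simp only [hind]
    exact (Finset.measurable_sum _ fun j _ => measurable_const.mul
      ((hΦ.measurable x).comp (hγ j x).measurable)).indicator (isClosed_dom x).1.measurableSet
  · simp only [hind]
    let : MeasurableSpace Y := eventuallyMeasurableSpace (borel Y) (residual Y)
    have h1 : ∀ j, Measurable fun y => Φ (γ j x (g y)) x := fun j =>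
      measurable_to_countable' fun b => hU x b Y _ ((hγ j x).comp hg)
    have h2 : MeasurableSet (g ⁻¹' {g : Chain n | x ∈ dom g}) :=
      ((isClosed_dom x).2.preimage hg).baireMeasurableSet
    exact ((Finset.measurable_sum Finset.univ fun j _ =>
      (measurable_const (a := ε j)).mul (h1 j)).indicator h2) (measurableSet_singleton a)

end Pool.Agent.P.MP_d72269_lc
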