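import Pool.Agent.P.MP_d72269_lc.Tree

/-!
One step of the iterated Hechler type filter: from a countably complete filter `L` on a
measurable space `P` to the filter `stp L` on `P × (ℕ → ℕ)`; every measurable set has the
Baire property for `stp L`.
-/

namespace Pool.Agent.P.MP_d72269_lc

open PiNat Filter Topology Set

variable {P : Type} [MeasurableSpace P]

/-- countably complete, measurably generated, and with essential unions. -/
structure Sys (L : Filter P) : Prop where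
  cnt : CountableInterFilter L
  meas : ∀ S ∈ L, ∃ T ∈ L, MeasurableSet T ∧ T ⊆ S
  es : ∀ 𝓒 : Set (Set P), (∀ C ∈ 𝓒, MeasurableSet C) →
    ∃ 𝓓 ⊆ 𝓒, 𝓓.Countable ∧ ∀ C ∈ 𝓒, ∀ᶠ p in L, p ∈ C → p ∈ ⋃₀ 𝓓

def Gen (φ : Nd → ℕ) (W : ℕ → Nd → Prop) (y : Om) : Prop :=
  (∃ N, Fol φ y N) ∧ ∀ m N, ∃ n, N ≤ n ∧ W m (res y n)

def Lg (L : Filter P) (S : Set (P × Om)) : Prop :=
  ∃ (P0 : Set P) (φ : P → Nd → ℕ) (W : ℕ → P → Nd → Prop), P0 ∈ L ∧
    (∀ u, Measurable fun p => φ p u) ∧ (∀ m u, Measurable fun p => W m p u) ∧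
    (∀ p ∈ P0, ∀ m, Dn (W m p)) ∧ ∀ p ∈ P0, ∀ y, Gen (φ p) (fun m => W m p) y → (p, y) ∈ S

def stp (L : Filter P) : Filter (P × Om) := countableGenerate {S | Lg L S}

instance stp_cnt (L : Filter P) : CountableInterFilter (stp L) := by
  unfold stp; infer_instance

/-- diagonal sum of countably many functions on nodes. -/
def dsum (φ : ℕ → Nd → ℕ) (v : Nd) : ℕ := ∑ j ∈ Finset.range (v.length + 1), φ j v

theorem le_dsum (φ : ℕ → Nd → ℕ) {j : ℕ} {v : Nd} (h : j ≤ v.length) : φ j v ≤ dsum φ v :=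
  Finset.single_le_sum (f := fun j => φ j v) (fun _ _ => Nat.zero_le _)
    (Finset.mem_range.2 (Nat.lt_succ_of_le h))

theorem Fol.of_dsum {φ : ℕ → Nd → ℕ} {y : Om} {n j : ℕ} (h : Fol (dsum φ) y n) (hj : j ≤ n) :
    Fol (φ j) y n := h.anti fun _ hv => le_dsum φ (hj.trans hv)

theorem meas_dsum {φ : ℕ → P → Nd → ℕ} (h : ∀ j u, Measurable fun p => φ j p u) (u : Nd) :
    Measurable fun p => dsum (fun j => φ j p) u :=
  Finset.measurable_sum _ fun j _ => h j u

theorem meas_rch {φ : P → Nd → ℕ} (hφ : ∀ u, Measurable fun p => φ p u) (s : Nd) :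
    ∀ u : Nd, Measurable fun p => Rch (φ p) s u
  | [] => measurable_const
  | _ :: u => measurable_const.or
      ((measurableSet_setOfPred.1 (measurableSet_le (hφ u) measurable_const)).and (meas_rch hφ s u))

theorem meas_sInf {Q : P → ℕ → Prop} (h : ∀ b, Measurable fun p => Q p b) :
    Measurable fun p => sInf {b | Q p b} := by
  refine measurable_to_countable' fun k => ?_
  have : (fun p => sInf {b | Q p b}) ⁻¹' {k} =
      {p | (Q p k ∧ ∀ b, b < k → ¬ Q p b) ∨ (k = 0 ∧ ∀ b, ¬ Q p b)} := by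
    ext p
    simp only [mem_preimage, mem_singleton_iff, mem_ofPred_eq]
    constructor
    · intro hk
      by_cases hne : {b | Q p b}.Nonempty
      · left
        refine ⟨hk ▸ Nat.sInf_mem hne, fun b hb hq => ?_⟩
        have := Nat.sInf_le (s := {b | Q p b}) hq
        omega
      · right
        refine ⟨?_, fun b hb => hne ⟨b, hb⟩⟩
        rw [← hk, not_nonempty_iff_eq_empty.1 hne, Nat.sInf_empty]
    · rintro (⟨h1, h2⟩ | ⟨h1, h2⟩)
      · apply le_antisymm (Nat.sInf_le h1)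
        by_contra hc
        exact h2 _ (not_le.1 hc) (Nat.sInf_mem (s := {b | Q p b}) ⟨k, h1⟩)
      · have : {b | Q p b} = ∅ := eq_empty_of_forall_notMem h2
        rw [this, Nat.sInf_empty, h1]
  rw [this]
  refine measurableSet_setOfPred.2 (((h k).and ?_).or (measurable_const.and ?_))
  · exact Measurable.forall fun b => measurable_const.imp (h b).not
  · exact Measurable.forall fun b => (h b).not

theorem meas_res_eq : ∀ (k : ℕ) (u : Nd), Measurable fun z : P × Om => res z.2 k = u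
  | 0, u => by simp only [res_zero]; exact measurable_const
  | k + 1, [] => by simp only [res_succ, reduceCtorEq]; exact measurable_const
  | k + 1, i :: u => by
      simp only [res_succ, List.cons.injEq]
      refine Measurable.and ?_ (meas_res_eq k u)
      exact measurableSet_setOfPred.1
        (measurableSet_eq_fun ((measurable_pi_apply k).comp measurable_snd) measurable_const)

theorem meas_node {Q : P × Om → Nd → Prop} (h : ∀ u, Measurable fun z => Q z u) (k : ℕ) :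
    Measurable fun z : P × Om => Q z (res z.2 k) := by
  have : (fun z : P × Om => Q z (res z.2 k)) = fun z => ∀ u, res z.2 k = u → Q z u := by
    funext z; simp
  rw [this]
  exact Measurable.forall fun u => (meas_res_eq k u).imp (h u)

theorem meas_fol {φ : P → Nd → ℕ} (hφ : ∀ u, Measurable fun p => φ p u) (N : ℕ) :
    Measurable fun z : P × Om => Fol (φ z.1) z.2 N := by
  refine Measurable.forall fun k => measurable_const.imp ?_
  refine meas_node (Q := fun z u => φ z.1 u ≤ z.2 k) (fun u => ?_) k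
  exact measurableSet_setOfPred.1 (measurableSet_le ((hφ u).comp measurable_fst)
    ((measurable_pi_apply k).comp measurable_snd))

theorem lg_mono {L : Filter P} {S T : Set (P × Om)} (h : Lg L S) (hST : S ⊆ T) : Lg L T := by
  obtain ⟨P0, φ, W, h1, h2, h3, h4, h5⟩ := h
  exact ⟨P0, φ, W, h1, h2, h3, h4, fun p hp y hy => hST (h5 p hp y hy)⟩

theorem lg_fst {L : Filter P} {A : Set P} (h : A ∈ L) : Lg L {z | z.1 ∈ A} :=
  ⟨A, fun _ _ => 0, fun _ _ _ => True, h, fun _ => measurable_const, fun _ _ => measurable_const,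
    fun _ _ _ => dn_true, fun _ hp _ _ => hp⟩

theorem lg_iInter {L : Filter P} [CountableInterFilter L] {S : ℕ → Set (P × Om)}
    (h : ∀ k, Lg L (S k)) : Lg L (⋂ k, S k) := by
  choose P0 φ W h1 h2 h3 h4 h5 using h
  refine ⟨⋂ k, P0 k, fun p => dsum fun k => φ k p, fun m => W m.unpair.1 m.unpair.2,
    countable_iInter_mem.2 h1, meas_dsum h2, fun m u => h3 _ _ u,
    fun p hp m => h4 _ p (mem_iInter.1 hp _) _, fun p hp y hy => mem_iInter.2 fun k => ?_⟩
  refine h5 k p (mem_iInter.1 hp k) y ⟨?_, fun m N => ?_⟩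
  · obtain ⟨N, hN⟩ := hy.1
    exact ⟨N + k, (hN.mono (Nat.le_add_right _ _)).of_dsum (Nat.le_add_left _ _)⟩
  · simpa using hy.2 (Nat.pair k m) N

theorem mem_stp {L : Filter P} [CountableInterFilter L] {S : Set (P × Om)} :
    S ∈ stp L ↔ Lg L S := by
  rw [stp, mem_countableGenerate_iff]
  refine ⟨fun ⟨𝓢, h1, h2, h3⟩ => lg_mono ?_ h3, fun h => ⟨{S}, by simpa using h, by simp, by simp⟩⟩
  rcases 𝓢.eq_empty_or_nonempty with rfl | hne
  · exact lg_mono (lg_fst univ_mem) (by simp)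
  · obtain ⟨f, rfl⟩ := h2.exists_eq_range hne
    rw [sInter_range]
    exact lg_iInter fun k => h1 (mem_range_self k)

theorem ev_fst {L : Filter P} [CountableInterFilter L] {Q : P → Prop} (h : ∀ᶠ p in L, Q p) :
    ∀ᶠ z in stp L, Q z.1 := mem_stp.2 (lg_fst h)

theorem pos_bs {L : Filter P} [CountableInterFilter L] {A : Set P} (h : ∃ᶠ p in L, p ∈ A)
    (s : Nd) (φ : P → Nd → ℕ) : ∃ᶠ z in stp L, z.1 ∈ A ∧ Bs s (φ z.1) z.2 := by
  rw [frequently_iff]
  intro U hU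
  obtain ⟨P0, φ0, W, h1, -, -, h4, h5⟩ := mem_stp.1 hU
  obtain ⟨p, hp0, hp⟩ := frequently_iff.1 h h1
  obtain ⟨y, hy, hw⟩ := gen1 s (fun u => φ p u + φ0 p u) (fun m => W m p) (h4 p hp0)
  exact ⟨(p, y), h5 p hp0 y ⟨⟨_, hy.2.anti fun v _ => Nat.le_add_left _ _⟩, hw⟩, hp, hy.1,
    hy.2.anti fun v _ => Nat.le_add_right _ _⟩

theorem freq_exists {X ι : Type*} {L : Filter X} [CountableInterFilter L] [Countable ι]
    {Q : ι → X → Prop} (h : ∃ᶠ p in L, ∃ i, Q i p) : ∃ i, ∃ᶠ p in L, Q i p := by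
  by_contra hc
  apply h
  have : ∀ i, ∀ᶠ p in L, ¬ Q i p := fun i => by
    by_contra h2
    exact hc ⟨i, h2⟩
  filter_upwards [eventually_countable_forall.2 this] with p hp ⟨i, hi⟩ using hp i hi

def Opn (A : ℕ → Set P) (s : ℕ → Nd) (φ : ℕ → P → Nd → ℕ) : Set (P × Om) :=
  {z | ∃ j, z.1 ∈ A j ∧ Bs (s j) (φ j z.1) z.2}

def HasBP (L : Filter P) (B : Set (P × Om)) : Prop :=
  ∃ (A : ℕ → Set P) (s : ℕ → Nd) (φ : ℕ → P → Nd → ℕ), (∀ j, MeasurableSet (A j)) ∧
    (∀ j u, Measurable fun p => φ j p u) ∧ ∀ᶠ z in stp L, (z ∈ B ↔ z ∈ Opn A s φ)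

theorem hasBP_compl {L : Filter P} (hL : Sys L) {B : Set (P × Om)} (hB : HasBP L B) :
    HasBP L Bᶜ := by
  have := hL.cnt
  obtain ⟨A, s, φ, hA, hφ, hB⟩ := hB
  let W : P → Nd → Prop := fun p u => ∃ j, j ≤ u.length ∧ p ∈ A j ∧ Rch (φ j p) (s j) u
  have hW : ∀ u, Measurable fun p => W p u := fun u =>
    Measurable.exists fun j => measurable_const.and
      ((measurable_mem.2 (hA j)).and (meas_rch (hφ j) _ _))
  have hes := fun v : Nd => hL.es {C | MeasurableSet C ∧ ∀ p ∈ C, Gd (W p) v} fun C hC => hC.1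
  choose 𝓓 h1 h2 h3 using hes
  let R : Nd → Set P := fun v => ⋃₀ 𝓓 v
  have hR : ∀ v, MeasurableSet (R v) := fun v =>
    MeasurableSet.sUnion (h2 v) fun C hC => (h1 v hC).1
  have hRg : ∀ v, ∀ p ∈ R v, Gd (W p) v := fun v p ⟨C, hC, hp⟩ => (h1 v hC).2 p hp
  have hcl : ∀ᶠ p in L, ∀ v, (W p v ∨ ∀ b, ∃ i, b ≤ i ∧ p ∈ R (i :: v)) → p ∈ R v := by
    refine eventually_countable_forall.2 fun v => ?_
    refine h3 v {p | W p v ∨ ∀ b, ∃ i, b ≤ i ∧ p ∈ R (i :: v)} ⟨?_, ?_⟩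
    · exact measurableSet_setOfPred.2 ((hW v).or (Measurable.forall fun b => Measurable.exists fun i =>
        measurable_const.and (measurable_mem.2 (hR _))))
    · rintro p (hp | hp)
      · exact gd_of_mem hp
      · refine gd_of_succ fun b => ?_
        obtain ⟨i, hi, hr⟩ := hp b
        exact ⟨i, hi, hRg _ p hr⟩
  let ψ : P → Nd → ℕ := fun p u => sInf {b | ∀ i, b ≤ i → ¬ p ∈ R (i :: u)}
  have hψ : ∀ u, Measurable fun p => ψ p u := fun u =>
    meas_sInf fun b => Measurable.forall fun i =>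
      measurable_const.imp (measurable_mem.2 (hR _)).not
  obtain ⟨e, he⟩ := exists_surjective_nat Nd
  refine ⟨fun j => (R (e j))ᶜ, e, fun _ => ψ, fun j => (hR _).compl, fun _ => hψ, ?_⟩
  have hcov : ∀ᶠ z in stp L,
      z ∈ Opn A s φ ∨ z ∈ Opn (fun j => (R (e j))ᶜ) e fun _ => ψ := by
    refine mem_stp.2 ⟨univ, fun p v => ψ p v + dsum (fun j => φ j p) v,
      fun _ p u => W p u ∨ ¬ p ∈ R u, univ_mem, fun u => (hψ u).add (meas_dsum hφ u),
      fun _ u => (hW u).or (measurable_mem.2 (hR _)).not, fun p _ _ v χ => ?_,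
      fun p _ y hy => ?_⟩
    · by_cases hp : p ∈ R v
      · obtain ⟨u, hu, hw⟩ := hRg v p hp χ
        exact ⟨u, hu, Or.inl hw⟩
      · exact ⟨v, rch_refl _ _, Or.inr hp⟩
    · obtain ⟨⟨N, hN⟩, hw⟩ := hy
      obtain ⟨n, hn, hw⟩ := hw 0 N
      have hf := hN.mono hn
      rcases hw with ⟨j, hj, hp, hr⟩ | hw
      · refine Or.inl ⟨j, hp, bs_of_rch hr ?_⟩
        exact Fol.of_dsum (φ := fun j => φ j p) (hf.anti fun v _ => Nat.le_add_left _ _)
          (by simpa using hj)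
      · obtain ⟨j, hj⟩ := he (res y n)
        refine Or.inr ⟨j, show p ∉ R (e j) by rw [hj]; exact hw, ?_⟩
        rw [hj]
        exact bs_of_rch (rch_refl _ _) (hf.anti fun v _ => Nat.le_add_right _ _)
  filter_upwards [hB, hcov, ev_fst hcl] with z hz1 hz2 hz3
  rw [mem_compl_iff, hz1]
  refine ⟨fun h => hz2.resolve_left h, fun ⟨j', hj1, hj2⟩ ⟨j, hj3, hj4⟩ => ?_⟩
  have h4 := hj2.rch (n := (e j').length + (s j).length + j) (by omega)
  have h5 := hj4.rch (n := (e j').length + (s j).length + j) (by omega)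
  exact not_of_rch (R := fun v => z.1 ∈ R v) (fun u hu => hz3 u (Or.inr hu)) hj1 h4
    (hz3 _ (Or.inl ⟨j, by simp, hj3, h5⟩))

theorem hasBP_iUnion {L : Filter P} {B : ℕ → Set (P × Om)} (hB : ∀ k, HasBP L (B k)) :
    HasBP L (⋃ k, B k) := by
  choose A s φ hA hφ hB using hB
  refine ⟨fun j => A j.unpair.1 j.unpair.2, fun j => s j.unpair.1 j.unpair.2,
    fun j => φ j.unpair.1 j.unpair.2, fun j => hA _ _, fun j u => hφ _ _ u, ?_⟩
  filter_upwards [eventually_countable_forall.2 hB] with z hz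
  rw [mem_iUnion]
  constructor
  · rintro ⟨k, hk⟩
    obtain ⟨j, hj⟩ := (hz k).1 hk
    exact ⟨Nat.pair k j, by simpa using hj⟩
  · rintro ⟨j, hj⟩
    exact ⟨_, (hz _).2 ⟨_, hj⟩⟩

theorem bs_zero {s : Nd} {y : Om} : Bs s (fun _ => 0) y ↔ res y s.length = s :=
  ⟨fun h => h.1, fun h => ⟨h, fun _ _ => Nat.zero_le _⟩⟩

theorem hasBP_fst {L : Filter P} {A : Set P} (hA : MeasurableSet A) :
    HasBP L (Prod.fst ⁻¹' A) :=
  ⟨fun _ => A, fun _ => [], fun _ _ _ => 0, fun _ => hA, fun _ _ => measurable_const,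
    Eventually.of_forall fun _ => ⟨fun h => ⟨0, h, bs_zero.2 rfl⟩, fun ⟨_, h, _⟩ => h⟩⟩

theorem hasBP_coord {L : Filter P} (k a : ℕ) : HasBP L ((fun z : P × Om => z.2 k) ⁻¹' {a}) := by
  obtain ⟨e, he⟩ := exists_surjective_nat Nd
  refine ⟨fun j => {_p | (e j).length = k}, fun j => a :: e j, fun _ _ _ => 0,
    fun j => measurableSet_setOfPred.2 measurable_const, fun _ _ => measurable_const,
    Eventually.of_forall fun z => ⟨fun h => ?_, fun ⟨j, hj1, hj2⟩ => ?_⟩⟩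
  · obtain ⟨j, hj⟩ := he (res z.2 k)
    have ha : z.2 k = a := h
    refine ⟨j, by simp [hj], bs_zero.2 ?_⟩
    simp [hj, ha]
  · have h3 := hj2.1
    have h4 : (e j).length = k := hj1
    rw [List.length_cons, res_succ, h4, List.cons.injEq] at h3
    exact h3.1

/-- the sets with the Baire property form a sigma algebra. -/
@[reducible] def bpSpace {L : Filter P} (hL : Sys L) : MeasurableSpace (P × Om) where
  MeasurableSet' := HasBP L
  measurableSet_empty := by simpa using hasBP_fst (L := L) (A := ∅) MeasurableSet.empty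
  measurableSet_compl := fun _ h => hasBP_compl hL h
  measurableSet_iUnion := fun _ h => hasBP_iUnion h

theorem hasBP {L : Filter P} (hL : Sys L) {B : Set (P × Om)} (hB : MeasurableSet B) :
    HasBP L B := by
  have h1 : @Measurable _ _ (bpSpace hL) _ (Prod.fst : P × Om → P) := fun A hA => hasBP_fst hA
  have h2 : ∀ k, @Measurable _ _ (bpSpace hL) _ fun z : P × Om => z.2 k := fun k =>
    @measurable_to_countable' _ _ _ _ (bpSpace hL) _ fun a => hasBP_coord k a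
  have h3 : @Measurable _ _ (bpSpace hL) _ (Prod.snd : P × Om → Om) :=
    @measurable_pi_lambda _ _ _ (bpSpace hL) _ _ h2
  exact (Measurable.prodMk (m := bpSpace hL) h1 h3) hB

theorem pos_basic {L : Filter P} (hL : Sys L) {B : Set (P × Om)} (hB : MeasurableSet B)
    (hp : ∃ᶠ z in stp L, z ∈ B) :
    ∃ (A : Set P) (s : Nd) (φ : P → Nd → ℕ), MeasurableSet A ∧ (∀ u, Measurable fun p => φ p u) ∧
      (∃ᶠ p in L, p ∈ A) ∧ ∀ᶠ z in stp L, z.1 ∈ A → Bs s (φ z.1) z.2 → z ∈ B := by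
  have := hL.cnt
  obtain ⟨A, s, φ, hA, hφ, h⟩ := hasBP hL hB
  have : ∃ᶠ p in L, ∃ j, p ∈ A j := by
    intro hc
    apply hp
    filter_upwards [ev_fst hc, h] with z h1 h2 hz
    obtain ⟨j, hj, -⟩ := h2.1 hz
    exact h1 ⟨j, hj⟩
  obtain ⟨j, hj⟩ := freq_exists this
  refine ⟨A j, s j, φ j, hA j, hφ j, hj, ?_⟩
  filter_upwards [h] with z hz h1 h2 using hz.2 ⟨j, h1, h2⟩

theorem Sys.step {L : Filter P} (hL : Sys L) : Sys (stp L) := by
  have := hL.cnt
  refine ⟨inferInstance, fun S hS => ?_, fun 𝓒 h𝓒 => ?_⟩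
  · obtain ⟨P0, φ, W, h1, h2, h3, h4, h5⟩ := mem_stp.1 hS
    obtain ⟨P1, h6, h7, h8⟩ := hL.meas P0 h1
    refine ⟨{z | z.1 ∈ P1 ∧ Gen (φ z.1) (fun m => W m z.1) z.2},
      mem_stp.2 ⟨P1, φ, W, h6, h2, h3, fun p hp => h4 p (h8 hp), fun p hp y hy => ⟨hp, hy⟩⟩, ?_,
      fun z hz => h5 _ (h8 hz.1) _ hz.2⟩
    refine measurableSet_setOfPred.2 (((measurable_mem.2 h7).comp measurable_fst).and
      ((Measurable.exists fun N => meas_fol h2 N).and ?_))
    refine Measurable.forall fun m => Measurable.forall fun N => Measurable.exists fun n =>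
      measurable_const.and ?_
    exact meas_node (Q := fun z u => W m z.1 u) (fun u => (h3 m u).comp measurable_fst) n
  · have hes := fun s : Nd => hL.es {A | MeasurableSet A ∧ ∃ C ∈ 𝓒, ∃ φ : P → Nd → ℕ,
      ∀ᶠ z in stp L, z.1 ∈ A → Bs s (φ z.1) z.2 → z ∈ C} fun C hC => hC.1
    choose 𝓓 h1 h2 h3 using hes
    have hc : ∀ (s : Nd) (A : 𝓓 s), ∃ C ∈ 𝓒, ∃ φ : P → Nd → ℕ,
        ∀ᶠ z in stp L, z.1 ∈ A.1 → Bs s (φ z.1) z.2 → z ∈ C := fun s A => (h1 s A.2).2
    choose c hc1 χ hc2 using hc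
    have hcnt : (⋃ s, range (c s)).Countable :=
      countable_iUnion fun s => by have := (h2 s).to_subtype; exact countable_range _
    have hsub : (⋃ s, range (c s)) ⊆ 𝓒 := by
      intro C hC
      obtain ⟨s, A, rfl⟩ := mem_iUnion.1 hC
      exact hc1 s A
    refine ⟨⋃ s, range (c s), hsub, hcnt, fun C hC => ?_⟩
    by_contra hne
    have hm : MeasurableSet (C \ ⋃₀ ⋃ s, range (c s)) :=
      (h𝓒 C hC).diff (MeasurableSet.sUnion hcnt fun D hD => h𝓒 D (hsub hD))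
    have hpos : ∃ᶠ z in stp L, z ∈ C \ ⋃₀ ⋃ s, range (c s) := by
      intro h
      apply hne
      filter_upwards [h] with z hz hzC
      by_contra h4
      exact hz ⟨hzC, h4⟩
    obtain ⟨A, s, φ, hA, -, hp, h4⟩ := pos_basic hL hm hpos
    have h5 := h3 s A ⟨hA, C, hC, φ, by filter_upwards [h4] with z hz a b using (hz a b).1⟩
    have := (h2 s).to_subtype
    have h6 : ∃ᶠ p in L, ∃ A' : 𝓓 s, p ∈ A ∩ A'.1 := by
      refine (hp.and_eventually h5).mono fun p hp => ?_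
      obtain ⟨A', h7, h8⟩ := hp.2 hp.1
      exact ⟨⟨A', h7⟩, hp.1, h8⟩
    obtain ⟨A', h7⟩ := freq_exists h6
    obtain ⟨z, ⟨hz1, hz2⟩, hz3, hz4⟩ :=
      ((pos_bs h7 s fun p u => φ p u + χ s A' p u).and_eventually (h4.and (hc2 s A'))).exists
    refine (hz3 hz1.1 ⟨hz2.1, hz2.2.anti fun v _ => Nat.le_add_right _ _⟩).2
      ⟨c s A', mem_iUnion.2 ⟨s, A', rfl⟩, ?_⟩
    exact hz4 hz1.2 ⟨hz2.1, hz2.2.anti fun v _ => Nat.le_add_left _ _⟩

theorem Sys.map {Q : Type} [MeasurableSpace Q] {L : Filter P} (hL : Sys L) (e : P ≃ᵐ Q) :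
    Sys (L.map e) := by
  have := hL.cnt
  refine ⟨inferInstance, fun S hS => ?_, fun 𝓒 h𝓒 => ?_⟩
  · obtain ⟨T, h1, h2, h3⟩ := hL.meas _ hS
    refine ⟨e.symm ⁻¹' T, ?_, e.symm.measurable h2, fun q hq => ?_⟩
    · rw [mem_map]
      convert h1 using 1
      ext p; simp
    · simpa using h3 hq
  · obtain ⟨𝓓, h1, h2, h3⟩ := hL.es ((fun C => e ⁻¹' C) '' 𝓒) (by
      rintro _ ⟨C, hC, rfl⟩
      exact e.measurable (h𝓒 C hC))
    refine ⟨(fun D => e.symm ⁻¹' D) '' 𝓓, ?_, h2.image _, fun C hC => ?_⟩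
    · rintro _ ⟨D, hD, rfl⟩
      obtain ⟨C, hC, rfl⟩ := h1 hD
      convert hC using 1
      ext q; simp
    · rw [eventually_map]
      filter_upwards [h3 _ ⟨C, hC, rfl⟩] with p hp hpC
      obtain ⟨D, hD, hpD⟩ := hp hpC
      exact ⟨_, ⟨D, hD, rfl⟩, by simpa using hpD⟩

theorem sys_pure [MeasurableSingletonClass P] (p0 : P) : Sys (pure p0 : Filter P) := by
  refine ⟨⟨fun S _ hS => mem_pure.2 (mem_sInter.2 fun t ht => mem_pure.1 (hS t ht))⟩,
    fun S hS => ⟨{p0}, by simp, measurableSet_singleton _, by simpa using hS⟩, fun 𝓒 _ => ?_⟩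
  by_cases h : ∃ C ∈ 𝓒, p0 ∈ C
  · obtain ⟨C, hC, hp⟩ := h
    exact ⟨{C}, by simpa using hC, countable_singleton _, fun D _ => by simp [hp]⟩
  · refine ⟨∅, empty_subset _, countable_empty, fun D hD => ?_⟩
    rw [eventually_pure]
    exact fun hp => (h ⟨D, hD, hp⟩).elim

/-- The decision lemma used in the continuous reading argument. -/
theorem dec {L : Filter P} (hL : Sys L) {B : Set (P × Om)} (hB : MeasurableSet B)
    (hp : ∃ᶠ z in stp L, z ∈ B) (h : ℕ → P × Om → ℕ) (hh : ∀ i, Measurable (h i)) :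
    ∃ (A : Set P) (s : Nd) (φ : P → Nd → ℕ) (W V : ℕ → P → Nd → Prop) (val : ℕ → P → Nd → ℕ),
      MeasurableSet A ∧ (∃ᶠ p in L, p ∈ A) ∧ (∀ u, Measurable fun p => φ p u) ∧
      (∀ m u, Measurable fun p => W m p u) ∧ (∀ m u, Measurable fun p => V m p u) ∧
      (∀ m u, Measurable fun p => val m p u) ∧
      ∀ p ∈ A, (∀ m, Dn (W m p)) ∧ (∀ i, Dn (V i p)) ∧
        ∀ y, Bs s (φ p) y → (∀ m N, ∃ n, N ≤ n ∧ W m p (res y n)) →
          (p, y) ∈ B ∧ ∀ i n, s.length + i ≤ n → V i p (res y n) →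
            h i (p, y) = val i p (res y n) := by
  have := hL.cnt
  obtain ⟨A0, s, φ0, hA0, hφ0, hp0, hB0⟩ := pos_basic hL hB hp
  have hbp := fun (i a : ℕ) => hasBP hL (hh i (measurableSet_singleton a))
  choose A t χ hA hχ hE using hbp
  have hall : ∀ᶠ z in stp L, (z.1 ∈ A0 → Bs s (φ0 z.1) z.2 → z ∈ B) ∧
      ∀ i a, (z ∈ h i ⁻¹' {a} ↔ z ∈ Opn (A i a) (t i a) (χ i a)) :=
    hB0.and (eventually_countable_forall.2 fun i => eventually_countable_forall.2 (hE i))
  obtain ⟨P0, φ1, W, h1, h2, h3, h4, h5⟩ := mem_stp.1 hall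
  obtain ⟨P1, h6, h7, h8⟩ := hL.meas P0 h1
  let Q : ℕ → P → Nd → ℕ → Prop := fun i p u j =>
    j ≤ u.length ∧ p ∈ A i j.unpair.1 j.unpair.2 ∧
      Rch (χ i j.unpair.1 j.unpair.2 p) (t i j.unpair.1 j.unpair.2) u
  have hQ : ∀ i u j, Measurable fun p => Q i p u j := fun i u j =>
    measurable_const.and ((measurable_mem.2 (hA _ _ _)).and (meas_rch (hχ _ _ _) _ _))
  let ψ : ℕ → P → Nd → ℕ := fun i p => dsum fun j => χ i j.unpair.1 j.unpair.2 p
  have hψ : ∀ i u, Measurable fun p => ψ i p u := fun i => meas_dsum fun j => hχ _ _ _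
  refine ⟨A0 ∩ P1, s, fun p v => φ0 p v + φ1 p v + dsum (fun i => ψ i p) v, W,
    fun i p u => ∃ j, Q i p u j, fun i p u => (sInf {j | Q i p u j}).unpair.1, hA0.inter h7,
    hp0.and_eventually h6, fun u => ((hφ0 u).add (h2 u)).add (meas_dsum hψ u), h3,
    fun i u => Measurable.exists (hQ i u),
    fun i u => (measurable_from_nat (f := fun j => j.unpair.1)).comp (meas_sInf (hQ i u)),
    fun p hp => ⟨h4 p (h8 hp.2), fun i v τ => ?_, fun y hy hw => ?_⟩⟩
  · obtain ⟨y, hy, hw⟩ := gen1 v (fun u => τ u + φ1 p u) (fun m => W m p) (h4 p (h8 hp.2))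
    have hz := h5 p (h8 hp.2) y ⟨⟨_, hy.2.anti fun v _ => Nat.le_add_left _ _⟩, hw⟩
    obtain ⟨j, hj1, hj2⟩ := (hz.2 i (h i (p, y))).1 rfl
    refine ⟨res y (v.length + (t i (h i (p, y)) j).length + Nat.pair (h i (p, y)) j),
      rch_mono (fun v => Nat.le_add_right _ _) (hy.rch (by omega)),
      Nat.pair (h i (p, y)) j, by simp, by simpa using hj1, ?_⟩
    simp only [Nat.unpair_pair]
    exact hj2.rch (by omega)
  · have hz := h5 p (h8 hp.2) y ⟨⟨_, hy.2.anti fun v _ => by dsimp only; omega⟩, hw⟩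
    refine ⟨hz.1 hp.1 ⟨hy.1, hy.2.anti fun v _ => by dsimp only; omega⟩, fun i n hn hv => ?_⟩
    obtain ⟨hj1, hj2, hj3⟩ : Q i p (res y n) (sInf {j | Q i p (res y n) j}) := Nat.sInf_mem hv
    refine (hz.2 i _).2 ⟨_, hj2, bs_of_rch hj3 ?_⟩
    have h9 : Fol (dsum fun i => ψ i p) y n :=
      (hy.2.mono (by omega)).anti fun v _ => Nat.le_add_left _ _
    exact Fol.of_dsum (φ := fun j => χ i j.unpair.1 j.unpair.2 p)
      (Fol.of_dsum (φ := fun i => ψ i p) h9 (by omega)) (by simpa using hj1)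

end Pool.Agent.P.MP_d72269_lc
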