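import Mathlib

/-!
Tree combinatorics: nodes are finite lists (last entry first), `Rch φ s u` says that `u` extends
`s` and stays above `φ`.  The main lemma `gen` builds, continuously in a parameter, a point that
stays above a given function and meets countably many dense sets of nodes.
-/

namespace Pool.Agent.P.MP_d72269_lc

open PiNat Filter Topology

abbrev Om : Type := ℕ → ℕ
abbrev Nd : Type := List ℕ

/-- `u` extends `s` and all new entries lie above `φ`. -/
def Rch (φ : Nd → ℕ) (s : Nd) : Nd → Prop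
  | [] => s = []
  | i :: u => s = i :: u ∨ (φ u ≤ i ∧ Rch φ s u)

/-- `y` lies above `φ` from position `n` on. -/
def Fol (φ : Nd → ℕ) (y : Om) (n : ℕ) : Prop := ∀ k, n ≤ k → φ (res y k) ≤ y k

/-- basic set with stem `s`. -/
def Bs (s : Nd) (φ : Nd → ℕ) (y : Om) : Prop := res y s.length = s ∧ Fol φ y s.length

def Gd (W : Nd → Prop) (s : Nd) : Prop := ∀ φ, ∃ u, Rch φ s u ∧ W u

def Dn (W : Nd → Prop) : Prop := ∀ s, Gd W s

theorem rch_refl (φ : Nd → ℕ) (s : Nd) : Rch φ s s := by
  cases s with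
  | nil => rfl
  | cons i u => exact Or.inl rfl

theorem rch_cons {φ : Nd → ℕ} {s u : Nd} {i : ℕ} (h : Rch φ s u) (hi : φ u ≤ i) :
    Rch φ s (i :: u) := Or.inr ⟨hi, h⟩

theorem rch_trans {φ : Nd → ℕ} {s u : Nd} (h : Rch φ s u) :
    ∀ {v : Nd}, Rch φ u v → Rch φ s v
  | [], h2 => by
      have : u = [] := h2
      subst this; exact h
  | i :: v, h2 => by
      rcases h2 with h2 | ⟨h2, h3⟩
      · subst h2; exact h
      · exact Or.inr ⟨h2, rch_trans h h3⟩

theorem rch_len {φ : Nd → ℕ} {s : Nd} : ∀ {u : Nd}, Rch φ s u → s.length ≤ u.length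
  | [], h => by
      have : s = [] := h
      subst this; exact le_rfl
  | i :: v, h => by
      rcases h with h | ⟨_, h⟩
      · subst h; exact le_rfl
      · exact (rch_len h).trans (by simp)

theorem rch_mono {φ ψ : Nd → ℕ} (hle : ∀ v, φ v ≤ ψ v) {s : Nd} :
    ∀ {u : Nd}, Rch ψ s u → Rch φ s u
  | [], h => h
  | i :: v, h => by
      rcases h with h | ⟨h1, h⟩
      · exact Or.inl h
      · exact Or.inr ⟨(hle v).trans h1, rch_mono hle h⟩

theorem Fol.mono {φ : Nd → ℕ} {y : Om} {n m : ℕ} (h : Fol φ y n) (hnm : n ≤ m) : Fol φ y m :=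
  fun k hk => h k (hnm.trans hk)

theorem Fol.anti {φ ψ : Nd → ℕ} {y : Om} {n : ℕ} (h : Fol ψ y n)
    (hle : ∀ v : Nd, n ≤ v.length → φ v ≤ ψ v) : Fol φ y n :=
  fun k hk => (hle _ (by simpa using hk)).trans (h k hk)

theorem Bs.rch {s : Nd} {φ : Nd → ℕ} {y : Om} (h : Bs s φ y) {n : ℕ} (hn : s.length ≤ n) :
    Rch φ s (res y n) := by
  induction n, hn using Nat.le_induction with
  | base => rw [h.1]; exact rch_refl _ _
  | succ n hn ih => exact rch_cons ih (h.2 n hn)

theorem rch_res {s : Nd} {φ : Nd → ℕ} {y : Om} :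
    ∀ {n : ℕ}, Rch φ s (res y n) →
      res y s.length = s ∧ ∀ k, s.length ≤ k → k < n → φ (res y k) ≤ y k
  | 0, h => by
      have : s = [] := h
      subst this
      exact ⟨rfl, fun k _ hk => absurd hk (Nat.not_lt_zero _)⟩
  | n + 1, h => by
      rcases h with h | ⟨h1, h⟩
      · have h' : s = res y (n + 1) := h
        have hl : s.length = n + 1 := by rw [h']; simp
        refine ⟨by rw [hl, h'], fun k h1 h2 => by omega⟩
      · obtain ⟨h2, h3⟩ := rch_res h
        refine ⟨h2, fun k h4 h5 => ?_⟩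
        rcases Nat.lt_succ_iff_lt_or_eq.1 h5 with h6 | h6
        · exact h3 k h4 h6
        · subst h6; exact h1

theorem bs_of_rch {s : Nd} {φ : Nd → ℕ} {y : Om} {n : ℕ} (h : Rch φ s (res y n))
    (hf : Fol φ y n) : Bs s φ y := by
  obtain ⟨h1, h2⟩ := rch_res h
  refine ⟨h1, fun k hk => ?_⟩
  by_cases hkn : k < n
  · exact h2 k hk hkn
  · exact hf k (not_lt.1 hkn)

theorem gd_of_mem {W : Nd → Prop} {s : Nd} (h : W s) : Gd W s := fun _ => ⟨s, rch_refl _ _, h⟩

theorem gd_of_succ {W : Nd → Prop} {s : Nd} (h : ∀ b, ∃ i, b ≤ i ∧ Gd W (i :: s)) : Gd W s := by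
  intro φ
  obtain ⟨i, hi, hg⟩ := h (φ s)
  obtain ⟨u, hu, hw⟩ := hg φ
  exact ⟨u, rch_trans (rch_cons (rch_refl _ _) hi) hu, hw⟩

theorem dn_true : Dn fun _ => True := fun _ => gd_of_mem trivial

/-- If `R` is closed under the derivative, one can stay outside `R`. -/
theorem not_of_rch {R : Nd → Prop} (hR : ∀ u, (∀ b, ∃ i, b ≤ i ∧ R (i :: u)) → R u) {s : Nd}
    (hs : ¬ R s) :
    ∀ {u : Nd}, Rch (fun u => sInf {b | ∀ i, b ≤ i → ¬ R (i :: u)}) s u → ¬ R u
  | [], h => by
      have : s = [] := h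
      subst this; exact hs
  | i :: u, h => by
      rcases h with h | ⟨h1, h⟩
      · subst h; exact hs
      · have hu := not_of_rch hR hs h
        have hne : {b | ∀ i, b ≤ i → ¬ R (i :: u)}.Nonempty := by
          by_contra hc
          apply hu
          apply hR
          intro b
          by_contra hb
          exact hc ⟨b, fun i hi hr => hb ⟨i, hi, hr⟩⟩
        exact Nat.sInf_mem hne i h1

/-! ### locally constant data -/

section lc
variable {T : Type*} [TopologicalSpace T]

theorem lc_app {α β : Type*} {a : T → α} (ha : IsLocallyConstant a) {G : T → α → β}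
    (hG : ∀ a0, IsLocallyConstant fun t => G t a0) : IsLocallyConstant fun t => G t (a t) := by
  rw [IsLocallyConstant.iff_eventually_eq] at ha ⊢
  intro t0
  filter_upwards [ha t0, (IsLocallyConstant.iff_eventually_eq _).1 (hG (a t0)) t0] with t h1 h2
  rw [h1, h2]

theorem lc_rch {φ : T → Nd → ℕ} (hφ : ∀ u, IsLocallyConstant fun t => φ t u) (s : Nd) :
    ∀ u : Nd, IsLocallyConstant fun t => Rch (φ t) s u
  | [] => IsLocallyConstant.const _
  | i :: u => (hφ u).comp₂ (lc_rch hφ s u) fun a b => s = i :: u ∨ (a ≤ i ∧ b)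

theorem lc_sInf {P : T → ℕ → Prop} (hP : ∀ j, IsLocallyConstant fun t => P t j)
    (hex : ∀ t, ∃ j, P t j) : IsLocallyConstant fun t => sInf {j | P t j} := by
  rw [IsLocallyConstant.iff_eventually_eq]
  intro t0
  have h1 : ∀ᶠ t in 𝓝 t0, ∀ j ∈ Finset.range (sInf {j | P t0 j} + 1), P t j = P t0 j := by
    rw [Filter.eventually_all_finset]
    exact fun j _ => (IsLocallyConstant.iff_eventually_eq _).1 (hP j) t0
  filter_upwards [h1] with t ht
  have h0 : P t0 (sInf {j | P t0 j}) := Nat.sInf_mem (hex t0)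
  apply le_antisymm
  · apply Nat.sInf_le
    change P t _
    rw [ht _ (by simp)]
    exact h0
  · by_contra hc
    have hlt := not_le.1 hc
    have h2 : P t (sInf {j | P t j}) := Nat.sInf_mem (hex t)
    rw [ht _ (by simp; omega)] at h2
    exact hc (Nat.sInf_le h2)

theorem lc_res {y : T → Om} (hy : Continuous y) :
    ∀ n, IsLocallyConstant fun t => res (y t) n
  | 0 => IsLocallyConstant.const _
  | n + 1 =>
      ((IsLocallyConstant.iff_continuous _).2 ((continuous_apply n).comp hy)).comp₂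
        (lc_res hy n) fun a b => a :: b

end lc

/-! ### the limit of an increasing sequence of nodes -/

def ent (u : Nd) (k : ℕ) : ℕ := u.reverse.getD k 0

theorem ent_cons_lt {i : ℕ} {u : Nd} {k : ℕ} (hk : k < u.length) : ent (i :: u) k = ent u k := by
  unfold ent
  rw [List.reverse_cons, List.getD_append _ _ _ _ (by simpa using hk)]

theorem ent_cons_self (i : ℕ) (u : Nd) : ent (i :: u) u.length = i := by
  unfold ent
  rw [List.reverse_cons, List.getD_append_right _ _ _ _ (by simp)]
  simp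

theorem ent_of_rch {φ : Nd → ℕ} {s : Nd} {k : ℕ} (hk : k < s.length) :
    ∀ {u : Nd}, Rch φ s u → ent u k = ent s k
  | [], h => by
      have : s = [] := h
      subst this; rfl
  | i :: v, h => by
      rcases h with h | ⟨_, h⟩
      · subst h; rfl
      · rw [ent_cons_lt (hk.trans_le (rch_len h)), ent_of_rch hk h]

theorem res_eq_of_ent {y : Om} :
    ∀ {u : Nd}, (∀ k, k < u.length → y k = ent u k) → res y u.length = u
  | [], _ => rfl
  | i :: u, h => by
      have h1 : res y u.length = u :=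
        res_eq_of_ent fun k hk => by
          rw [h k (by simp; omega), ent_cons_lt hk]
      have h2 : y u.length = i := by rw [h _ (by simp), ent_cons_self]
      rw [List.length_cons, res_succ, h1, h2]

theorem gen0 {T : Type*} [TopologicalSpace T] (s : Nd) (φ : T → Nd → ℕ)
    (hφ : ∀ u, IsLocallyConstant fun t => φ t u) (W : ℕ → T → Nd → Prop)
    (hW : ∀ m u, IsLocallyConstant fun t => W m t u) (hD : ∀ m t, Dn (W m t)) :
    ∃ y : T → Om, Continuous y ∧ (∀ t, Bs s (φ t) (y t)) ∧
      ∀ m t, ∃ n, m ≤ n ∧ W m t (res (y t) n) := by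
  obtain ⟨e, he⟩ := exists_surjective_nat Nd
  let Q : ℕ → T → Nd → ℕ → Prop := fun m t a j =>
    Rch (φ t) (φ t a :: a) (e j) ∧ W m t (e j)
  have hQ : ∀ m t a, ∃ j, Q m t a j := by
    intro m t a
    obtain ⟨u, hu⟩ := hD m t (φ t a :: a) (φ t)
    obtain ⟨j, rfl⟩ := he u
    exact ⟨j, hu⟩
  let nx : ℕ → T → Nd → Nd := fun m t a => e (sInf {j | Q m t a j})
  have hnx : ∀ m t a, Rch (φ t) (φ t a :: a) (nx m t a) ∧ W m t (nx m t a) :=
    fun m t a => Nat.sInf_mem (hQ m t a)
  have hlc : ∀ m a, IsLocallyConstant fun t => nx m t a := by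
    intro m a
    refine (lc_sInf (P := fun t j => Q m t a j) (fun j => ?_) (fun t => hQ m t a)).comp e
    refine IsLocallyConstant.comp₂ ?_ (hW m (e j)) And
    exact lc_app (G := fun t b => Rch (φ t) (b :: a) (e j)) (hφ a)
      fun b => lc_rch hφ _ _
  let u : ℕ → T → Nd := fun m => Nat.rec (fun _ => s) (fun m um t => nx m t (um t)) m
  have hu0 : ∀ t, u 0 t = s := fun _ => rfl
  have hus : ∀ m t, u (m + 1) t = nx m t (u m t) := fun _ _ => rfl
  have hulc : ∀ m, IsLocallyConstant (u m) := by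
    intro m
    induction m with
    | zero => exact IsLocallyConstant.const _
    | succ m ih => exact lc_app (G := fun t a => nx m t a) ih (hlc m)
  have hstep : ∀ m t, Rch (φ t) (u m t) (u (m + 1) t) := fun m t =>
    rch_trans (rch_cons (rch_refl _ _) le_rfl) (hnx m t (u m t)).1
  have hlen : ∀ m t, m ≤ (u m t).length := by
    intro m t
    induction m with
    | zero => exact Nat.zero_le _
    | succ m ih =>
      have := rch_len (hnx m t (u m t)).1
      rw [hus]
      simp at this
      omega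
  have hle : ∀ t m k, m ≤ k → Rch (φ t) (u m t) (u k t) := by
    intro t m k hk
    induction k, hk using Nat.le_induction with
    | base => exact rch_refl _ _
    | succ k _ ih => exact rch_trans ih (hstep k t)
  let y : T → Om := fun t k => ent (u (k + 1) t) k
  have hres : ∀ t m, res (y t) (u m t).length = u m t := by
    intro t m
    apply res_eq_of_ent
    intro k hk
    change ent (u (k + 1) t) k = _
    rcases le_total m (k + 1) with h | h
    · exact ent_of_rch hk (hle t _ _ h)
    · exact (ent_of_rch (hlen (k + 1) t) (hle t _ _ h)).symm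
  refine ⟨y, ?_, fun t => ?_, fun m t => ⟨(u (m + 1) t).length, ?_, ?_⟩⟩
  · exact continuous_pi fun k => ((hulc (k + 1)).comp fun a => ent a k).continuous
  · refine ⟨hres t 0, fun k hk => ?_⟩
    have h1 : Rch (φ t) s (res (y t) (u (k + 1) t).length) := by
      rw [hres t (k + 1)]; exact hle t 0 (k + 1) (Nat.zero_le _)
    exact (rch_res h1).2 k hk (hlen (k + 1) t)
  · exact (Nat.le_succ m).trans (hlen (m + 1) t)
  · rw [hres t (m + 1)]; exact (hnx m t _).2

theorem gen {T : Type*} [TopologicalSpace T] {κ : Type} [Countable κ] (s : Nd) (φ : T → Nd → ℕ)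
    (hφ : ∀ u, IsLocallyConstant fun t => φ t u) (W : κ → T → Nd → Prop)
    (hW : ∀ k u, IsLocallyConstant fun t => W k t u) (hD : ∀ k t, Dn (W k t)) :
    ∃ y : T → Om, Continuous y ∧ (∀ t, Bs s (φ t) (y t)) ∧
      ∀ k t N, ∃ n, N ≤ n ∧ W k t (res (y t) n) := by
  obtain ⟨e, he⟩ := exists_surjective_nat (Option κ)
  let W' : Option κ → T → Nd → Prop := fun o => o.elim (fun _ _ => True) W
  obtain ⟨y, hy, hb, hm⟩ := gen0 s φ hφ (fun m => W' (e m.unpair.1))
    (fun m u => by
      cases e m.unpair.1 with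
      | none => exact IsLocallyConstant.const _
      | some k => exact hW k u)
    (fun m t => by
      cases e m.unpair.1 with
      | none => exact dn_true
      | some k => exact hD k t)
  refine ⟨y, hy, hb, fun k t N => ?_⟩
  obtain ⟨a, ha⟩ := he (some k)
  obtain ⟨n, hn, hw⟩ := hm (Nat.pair a N) t
  refine ⟨n, (Nat.right_le_pair a N).trans hn, ?_⟩
  simp only [Nat.unpair_pair, ha] at hw
  exact hw

/-- the Baire category statement for one point. -/
theorem gen1 {κ : Type} [Countable κ] (s : Nd) (φ : Nd → ℕ) (W : κ → Nd → Prop)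
    (hD : ∀ k, Dn (W k)) :
    ∃ y : Om, Bs s φ y ∧ ∀ k N, ∃ n, N ≤ n ∧ W k (res y n) := by
  obtain ⟨y, -, h1, h2⟩ := gen (T := Unit) s (fun _ => φ) (fun _ => IsLocallyConstant.const _)
    (fun k _ => W k) (fun _ _ => IsLocallyConstant.const _) fun k _ => hD k
  exact ⟨y (), h1 (), fun k N => h2 k () N⟩

end Pool.Agent.P.MP_d72269_lc
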